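import Pool.Agent.Lib.MP_d0f9e0_co.WHNear.Gauss

/-!
# Cubic phases in every odd characteristic
-/

set_option autoImplicit false

namespace Pool.Agent.Lib.MP_d0f9e0_co.WHNear

variable {F : Type} [Field F]

/-- The extension of `F` by the circle with the cocycle `γ (x y (x + y))`. -/
@[ext] structure Ext (γ : F →+ AddCircle (1 : ℝ)) where
  /-- base point -/
  x : F
  /-- fibre coordinate -/
  u : AddCircle (1 : ℝ)

namespace Ext

variable {γ : F →+ AddCircle (1 : ℝ)}

instance : Add (Ext γ) := ⟨fun p q => ⟨p.x + q.x, p.u + q.u + γ (p.x * q.x * (p.x + q.x))⟩⟩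
instance : Zero (Ext γ) := ⟨⟨0, 0⟩⟩
instance : Neg (Ext γ) := ⟨fun p => ⟨-p.x, -p.u⟩⟩

lemma add_x (p q : Ext γ) : (p + q).x = p.x + q.x := rfl
lemma add_u (p q : Ext γ) : (p + q).u = p.u + q.u + γ (p.x * q.x * (p.x + q.x)) := rfl
lemma zero_x : (0 : Ext γ).x = 0 := rfl
lemma zero_u : (0 : Ext γ).u = 0 := rfl
lemma neg_x (p : Ext γ) : (-p).x = -p.x := rfl
lemma neg_u (p : Ext γ) : (-p).u = -p.u := rfl

instance : AddCommGroup (Ext γ) where
  add_assoc p q r := by
    ext
    · simp only [add_x, add_assoc]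
    · simp only [add_u, add_x]
      have h : γ (p.x * q.x * (p.x + q.x)) + γ ((p.x + q.x) * r.x * (p.x + q.x + r.x)) =
          γ (q.x * r.x * (q.x + r.x)) + γ (p.x * (q.x + r.x) * (p.x + (q.x + r.x))) := by
        rw [← map_add, ← map_add]; congr 1; ring
      calc p.u + q.u + γ (p.x * q.x * (p.x + q.x)) + r.u +
            γ ((p.x + q.x) * r.x * (p.x + q.x + r.x))
          = p.u + q.u + r.u + (γ (p.x * q.x * (p.x + q.x)) +
            γ ((p.x + q.x) * r.x * (p.x + q.x + r.x))) := by abel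
        _ = _ := by rw [h]; abel
  zero_add p := by
    ext
    · simp [add_x, zero_x]
    · simp [add_u, zero_x, zero_u]
  add_zero p := by
    ext
    · simp [add_x, zero_x]
    · simp [add_u, zero_x, zero_u]
  add_comm p q := by
    ext
    · simp only [add_x, add_comm]
    · simp only [add_u]
      rw [add_comm p.u, mul_comm p.x, add_comm p.x]
  neg_add_cancel p := by
    ext
    · simp [add_x, neg_x, zero_x]
    · simp [add_u, neg_x, neg_u, zero_u]
  nsmul := nsmulRec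
  zsmul := zsmulRec

/-- The inclusion of the circle. -/
def incl (γ : F →+ AddCircle (1 : ℝ)) : AddCircle (1 : ℝ) →+ Ext γ where
  toFun a := ⟨0, a⟩
  map_zero' := rfl
  map_add' a b := by
    ext
    · simp [add_x]
    · simp [add_u]

lemma incl_injective : Function.Injective (incl γ) := fun a b h => by
  have := congrArg Ext.u h
  exact this

end Ext

/-- The cocycle `γ (x y (x + y))` is a coboundary. -/
lemma exists_primitive (γ : F →+ AddCircle (1 : ℝ)) :
    ∃ B : F → AddCircle (1 : ℝ), ∀ x y, B (x + y) = B x + B y + γ (x * y * (x + y)) := by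
  have : Fact ((0 : ℝ) < 1) := ⟨one_pos⟩
  obtain ⟨g, hg⟩ := (Module.Baer.of_divisible (AddCircle (1 : ℝ))).extension_property_addMonoidHom
    (Ext.incl γ) Ext.incl_injective (AddMonoidHom.id _)
  refine ⟨fun x => - g ⟨x, 0⟩, fun x y => ?_⟩
  have h1 : (⟨x, 0⟩ : Ext γ) + ⟨y, 0⟩ = ⟨x + y, 0⟩ + Ext.incl γ (γ (x * y * (x + y))) := by
    ext
    · simp [Ext.add_x, Ext.incl]
    · simp [Ext.add_u, Ext.incl]
  have h2 := congrArg g h1
  rw [map_add, map_add] at h2
  have h3 : g (Ext.incl γ (γ (x * y * (x + y)))) = γ (x * y * (x + y)) :=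
    DFunLike.congr_fun hg _
  rw [h3] at h2
  have h4 : g ⟨x + y, 0⟩ = g ⟨x, 0⟩ + g ⟨y, 0⟩ - γ (x * y * (x + y)) := by
    rw [h2, add_sub_cancel_right]
  show -g ⟨x + y, 0⟩ = -g ⟨x, 0⟩ + -g ⟨y, 0⟩ + γ (x * y * (x + y))
  rw [h4]; abel

/-- The additive character attached to `γ`. -/
noncomputable def chr (γ : F →+ AddCircle (1 : ℝ)) : AddChar F ℂ :=
  Circle.coeHom.compAddChar ((AddCircle.toCircle_addChar (T := 1)).compAddMonoidHom γ)

lemma chr_apply (γ : F →+ AddCircle (1 : ℝ)) (x : F) :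
    chr γ x = ((γ x).toCircle : ℂ) := rfl

lemma exists_hom [Finite F] : ∃ γ : F →+ AddCircle (1 : ℝ), γ ≠ 0 := by
  obtain ⟨p, hp⟩ := CharP.exists F
  have : Fact p.Prime :=
    ⟨(CharP.char_is_prime_or_zero F p).resolve_right (CharP.char_ne_zero_of_finite F p)⟩
  let _ := ZMod.algebra F p
  have h1 : ¬ ∀ l : Module.Dual (ZMod p) F, l 1 = 0 := fun h =>
    one_ne_zero ((Module.forall_dual_apply_eq_zero_iff (ZMod p) (1 : F)).1 h)
  push Not at h1
  obtain ⟨l, hl⟩ := h1
  refine ⟨(ZMod.toAddCircle (N := p)).comp l.toAddMonoidHom, fun h => hl ?_⟩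
  have h2 := DFunLike.congr_fun h 1
  exact (ZMod.toAddCircle_injective p) (by rw [map_zero]; exact h2)

lemma chr_ne_one {γ : F →+ AddCircle (1 : ℝ)} (h : γ ≠ 0) : chr γ ≠ 1 := by
  intro h1
  apply h
  ext x
  have h2 : ((γ x).toCircle : ℂ) = 1 := DFunLike.congr_fun h1 x
  have h3 : (γ x).toCircle = 1 := Circle.ext h2
  rw [← AddCircle.toCircle_zero (T := 1)] at h3
  exact AddCircle.injective_toCircle one_ne_zero h3

/-- **Cubic phases.** -/
theorem exists_cubic [Finite F] : ∃ (ψ : AddChar F ℂ) (β : F → ℂ), ψ ≠ 1 ∧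
    (∀ k, ‖β k‖ = 1) ∧ β 0 = 1 ∧ (∀ a k, β (k + a) = β k * β a * ψ (a * k ^ 2 + a ^ 2 * k)) ∧
    (∀ c k, c ^ 3 = 1 → β (c * k) = β k) ∧ (∀ k, β (-k) = star (β k)) := by
  obtain ⟨γ, hγ⟩ := exists_hom (F := F)
  have key : ∀ β : F → ℂ, (∀ k, ‖β k‖ = 1) → β 0 = 1 →
      (∀ a k, β (k + a) = β k * β a * chr γ (a * k ^ 2 + a ^ 2 * k)) →
      ∀ k, β (-k) = star (β k) := by
    intro β hn h0 hadd k
    have h1 := hadd (-k) k
    have e : -k * k ^ 2 + (-k) ^ 2 * k = 0 := by ring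
    rw [add_neg_cancel, h0, e, AddChar.map_zero_eq_one, mul_one] at h1
    have h2 : β k * star (β k) = 1 := by
      rw [Complex.star_def, Complex.mul_conj, Complex.normSq_eq_norm_sq, hn]; simp
    have h3 : β k ≠ 0 := fun h => by rw [h, zero_mul] at h2; exact zero_ne_one h2
    exact mul_left_cancel₀ h3 (by rw [← h1, h2])
  by_cases h3 : (3 : F) = 0
  · obtain ⟨B, hB⟩ := exists_primitive γ
    have h0 : ((B 0).toCircle : ℂ) = 1 := by
      have h := hB 0 0
      simp only [add_zero, mul_zero, map_zero] at h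
      have : B 0 = 0 := add_eq_left.1 h.symm
      rw [this, AddCircle.toCircle_zero]; rfl
    have hadd : ∀ a k, ((B (k + a)).toCircle : ℂ) = (B k).toCircle * (B a).toCircle *
        chr γ (a * k ^ 2 + a ^ 2 * k) := by
      intro a k
      rw [hB, AddCircle.toCircle_add, AddCircle.toCircle_add, chr_apply]
      push_cast
      congr 4
      ring
    refine ⟨chr γ, fun k => ((B k).toCircle : ℂ), chr_ne_one hγ, fun k => Circle.norm_coe _, h0,
      hadd, ?_, key (fun k => ((B k).toCircle : ℂ)) (fun k => Circle.norm_coe _) h0 hadd⟩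
    intro c k hc
    have h4 : (c - 1) ^ 3 = 0 := by
      have : (c - 1) ^ 3 = c ^ 3 - 1 - 3 * (c ^ 2 - c) := by ring
      rw [this, hc, h3]; ring
    have h5 : c = 1 := sub_eq_zero.1 ((pow_eq_zero_iff three_ne_zero).1 h4)
    rw [h5, one_mul]
  · have hadd : ∀ a k : F, chr γ ((k + a) ^ 3 / 3) = chr γ (k ^ 3 / 3) * chr γ (a ^ 3 / 3) *
        chr γ (a * k ^ 2 + a ^ 2 * k) := by
      intro a k
      rw [← AddChar.map_add_eq_mul, ← AddChar.map_add_eq_mul]
      congr 1
      field_simp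
      ring
    have h0 : chr γ ((0 : F) ^ 3 / 3) = 1 := by
      rw [zero_pow three_ne_zero, zero_div, AddChar.map_zero_eq_one]
    refine ⟨chr γ, fun k => chr γ (k ^ 3 / 3), chr_ne_one hγ, fun k => Circle.norm_coe _, h0,
      hadd, ?_, key (fun k => chr γ (k ^ 3 / 3)) (fun k => Circle.norm_coe _) h0 hadd⟩
    intro c k hc
    show chr γ ((c * k) ^ 3 / 3) = _
    rw [mul_pow, hc, one_mul]

end Pool.Agent.Lib.MP_d0f9e0_co.WHNear
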