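import Mathlib

/-!
# Near equiangular Weyl-Heisenberg orbits in dimension `d = q - 1` (helper74)

`F` a finite field with `q ≥ 3` elements, `G` an abelian group (written additively) isomorphic to
`Fˣ` through `γ`, for example `G = ZMod (q - 1)`.  The vector

`v k = ψ (γ k) / √d + t δ_{k,0} + t / √d`,  `t = d ^ (-1/4)`,

has all Weyl-Heisenberg overlaps of modulus `(1 + O(t)) / √d`.
-/

namespace Pool.Agent.Lib.MP_d0f9e0_co.WHNear

open Finset ComplexConjugate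

section Gauss

variable {F : Type*} [Field F] [Fintype F] {G : Type*} [AddCommGroup G] [Fintype G]

theorem sum_field_eq [DecidableEq F] (f : F → ℂ) : ∑ x : F, f x = f 0 + ∑ x : Fˣ, f x := by
  rw [Fintype.sum_eq_add_sum_subtype_ne f 0]
  congr 1
  exact (Equiv.sum_comp unitsEquivNeZero (fun x : {a : F // a ≠ 0} => f x)).symm

/-- an isomorphism of `G` with the multiplicative group of `F` -/
structure IsExp (γ : G → Fˣ) : Prop where
  bij : Function.Bijective γ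
  add : ∀ k l, γ (k + l) = γ k * γ l

variable {γ : G → Fˣ}

omit [Fintype F] [Fintype G] in
theorem IsExp.zero (hγ : IsExp γ) : γ 0 = 1 := by
  have h := hγ.add 0 0
  rw [add_zero] at h
  exact (mul_eq_left.1 h.symm)

theorem IsExp.card (hγ : IsExp γ) : (Fintype.card G : ℂ) = Fintype.card F - 1 := by
  classical
  have h1 : Fintype.card G = Fintype.card Fˣ := Fintype.card_of_bijective hγ.bij
  rw [h1, Fintype.card_units, Nat.cast_sub Fintype.card_pos]
  simp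

theorem sum_psi (hγ : IsExp γ) {ψ : AddChar F ℂ} (hψ : ψ.IsPrimitive) {c : F} (hc : c ≠ 0) :
    ∑ k, ψ (c * γ k) = -1 := by
  classical
  have h1 : ∑ k, ψ (c * γ k) = ∑ x : Fˣ, ψ (c * x) :=
    Function.Bijective.sum_comp hγ.bij (fun x : Fˣ => ψ (c * x))
  have h2 := sum_field_eq (fun x : F => ψ (c * x))
  have h3 : ∑ x : F, ψ (c * x) = 0 := by
    have := AddChar.sum_mulShift c hψ
    rw [if_neg hc] at this
    simpa [mul_comm] using this
  rw [h3] at h2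
  simp only [mul_zero, AddChar.map_zero_eq_one] at h2
  rw [h1]
  linear_combination -h2

theorem sum_char {χ : AddChar G ℂ} (hχ : χ ≠ 1) : ∑ k, χ k = 0 :=
  AddChar.sum_eq_zero_of_ne_one hχ

theorem norm_gauss (hγ : IsExp γ) {ψ : AddChar F ℂ} (hψ : ψ.IsPrimitive) {c : F} (hc : c ≠ 0)
    {χ : AddChar G ℂ} (hχ : χ ≠ 1) :
    ‖∑ k, ψ (c * γ k) * χ k‖ = Real.sqrt (Fintype.card F) := by
  classical
  set S : ℂ := ∑ k, ψ (c * γ k) * χ k with hS
  have h1 : S * conj S = Fintype.card F := by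
    have e1 : S * conj S = ∑ l, ∑ k, ψ (c * γ (k + l)) * χ (k + l) * (ψ (-(c * γ l)) * χ (-l)) := by
      rw [hS, map_sum, mul_sum]
      refine sum_congr rfl fun l _ => ?_
      rw [sum_mul, ← Equiv.sum_comp (Equiv.addRight l)]
      refine sum_congr rfl fun k _ => ?_
      rw [map_mul (starRingEnd ℂ), ← AddChar.map_neg_eq_conj, ← AddChar.map_neg_eq_conj]
      rfl
    have e2 : ∀ l k, ψ (c * γ (k + l)) * χ (k + l) * (ψ (-(c * γ l)) * χ (-l)) =
        χ k * ψ (c * (γ k - 1) * γ l) := by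
      intro l k
      have a1 : ψ (c * (γ k - 1) * γ l) = ψ (c * γ (k + l)) * ψ (-(c * γ l)) := by
        rw [← AddChar.map_add_eq_mul]
        congr 1
        rw [hγ.add]; push_cast; ring
      have a2 : χ (k + l) * χ (-l) = χ k := by
        rw [← AddChar.map_add_eq_mul, add_neg_cancel_right]
      rw [a1, ← a2]; ring
    rw [e1, sum_comm]
    simp only [e2]
    simp only [← mul_sum]
    have e3 : ∀ k, ∑ l, ψ (c * (γ k - 1) * γ l) = if k = 0 then (Fintype.card F : ℂ) - 1 else -1 := by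
      intro k
      split_ifs with hk
      · rw [hk, hγ.zero]
        simp [hγ.card]
      · refine sum_psi hγ hψ (mul_ne_zero hc ?_)
        intro h
        apply hk
        apply hγ.bij.1
        rw [hγ.zero]
        exact Units.ext (sub_eq_zero.1 h)
    simp only [e3]
    have e4 : ∀ k, χ k * (if k = 0 then (Fintype.card F : ℂ) - 1 else -1) =
        (if k = 0 then (Fintype.card F : ℂ) else 0) - χ k := by
      intro k
      split_ifs with hk
      · rw [hk, AddChar.map_zero_eq_one]; ring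
      · ring
    simp only [e4]
    rw [sum_sub_distrib, sum_char hχ, sub_zero, Finset.sum_ite_eq' univ (0 : G)]
    simp
  have h2 : ‖S‖ ^ 2 = Fintype.card F := by
    rw [Complex.mul_conj, Complex.normSq_eq_norm_sq] at h1
    exact_mod_cast h1
  rw [← h2, Real.sqrt_sq (norm_nonneg _)]

end Gauss

section Overlap

variable {F : Type*} [Field F] [Fintype F] {G : Type*} [AddCommGroup G] [Fintype G] [DecidableEq G]

/-- the vector: exponential sequence, a spike, a constant -/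
noncomputable def vec (ψ : AddChar F ℂ) (γ : G → Fˣ) (t : ℝ) (k : G) : ℂ :=
  (t : ℂ) ^ 2 * ψ (γ k) + (t : ℂ) * (if k = 0 then 1 else 0) + (t : ℂ) ^ 3

/-- the overlap of `φ` with its displacement -/
noncomputable def ov (φ : G → ℂ) (a : G) (χ : AddChar G ℂ) : ℂ := ∑ k, φ (k + a) * conj (φ k) * χ k

theorem sum_delta (f : G → ℂ) (a : G) : ∑ k, (if k + a = 0 then 1 else 0) * f k = f (-a) := by
  rw [Finset.sum_eq_single (-a)]
  · simp
  · intro k _ hk
    rw [if_neg, zero_mul]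
    intro h
    exact hk (eq_neg_of_add_eq_zero_left h)
  · intro h
    exact absurd (mem_univ _) h

theorem sum_delta0 (f : G → ℂ) : ∑ k, (if k = 0 then 1 else 0) * f k = f 0 := by
  have := sum_delta f 0
  rwa [neg_zero, sum_congr rfl fun k _ => by rw [add_zero]] at this

theorem ov_vec {ψ : AddChar F ℂ} {γ : G → Fˣ} (t : ℝ) (a : G) (χ : AddChar G ℂ) :
    ov (vec ψ γ t) a χ =
      (t : ℂ) ^ 4 * (∑ k, ψ (γ (k + a)) * conj (ψ (γ k)) * χ k) +
      (t : ℂ) ^ 2 * (if a = 0 then 1 else 0) +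
      (t : ℂ) ^ 6 * (∑ k, χ k) +
      (t : ℂ) ^ 3 * (ψ (γ a) + conj (ψ (γ (-a))) * χ (-a)) +
      (t : ℂ) ^ 5 * ((∑ k, ψ (γ (k + a)) * χ k) + ∑ k, conj (ψ (γ k)) * χ k) +
      (t : ℂ) ^ 4 * (χ (-a) + 1) := by
  have h : ∀ k, vec ψ γ t (k + a) * conj (vec ψ γ t k) * χ k =
      (t : ℂ) ^ 4 * (ψ (γ (k + a)) * conj (ψ (γ k)) * χ k) +
      (t : ℂ) ^ 2 * ((if k + a = 0 then 1 else 0) * ((if k = 0 then 1 else 0) * χ k)) +
      (t : ℂ) ^ 6 * χ k +
      (t : ℂ) ^ 3 * ((if k = 0 then 1 else 0) * (ψ (γ (k + a)) * χ k)) +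
      (t : ℂ) ^ 3 * ((if k + a = 0 then 1 else 0) * (conj (ψ (γ k)) * χ k)) +
      (t : ℂ) ^ 5 * (ψ (γ (k + a)) * χ k) + (t : ℂ) ^ 5 * (conj (ψ (γ k)) * χ k) +
      (t : ℂ) ^ 4 * ((if k + a = 0 then 1 else 0) * χ k) +
      (t : ℂ) ^ 4 * ((if k = 0 then 1 else 0) * χ k) := by
    intro k
    have e1 : conj (vec ψ γ t k) =
        (t : ℂ) ^ 2 * conj (ψ (γ k)) + (t : ℂ) * (if k = 0 then 1 else 0) + (t : ℂ) ^ 3 := by
      unfold vec
      rw [map_add, map_add, map_mul (starRingEnd ℂ), map_mul (starRingEnd ℂ), map_pow, map_pow,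
        Complex.conj_ofReal]
      congr 2
      split_ifs <;> simp
    rw [e1]
    unfold vec
    ring
  unfold ov
  rw [Finset.sum_congr rfl fun k _ => h k]
  simp only [sum_add_distrib, ← mul_sum]
  rw [sum_delta0, sum_delta (fun k => (if k = 0 then 1 else 0) * χ k), sum_delta, sum_delta,
    sum_delta0]
  have e2 : (if -a = 0 then (1 : ℂ) else 0) * χ (-a) = if a = 0 then 1 else 0 := by
    by_cases ha : a = 0
    · simp [ha]
    · simp [ha]
  rw [e2, zero_add, AddChar.map_zero_eq_one]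
  ring

/-- norm of a sum against a main term -/
theorem abs_norm_sub_le {z m : ℂ} {M R : ℝ} (hm : ‖m‖ = M) (hr : ‖z - m‖ ≤ R) : |‖z‖ - M| ≤ R := by
  rw [← hm]
  exact (abs_norm_sub_norm_le z m).trans hr

variable {γ : G → Fˣ}

theorem p_corr (hγ : IsExp γ) (ψ : AddChar F ℂ) (a : G) (χ : AddChar G ℂ) :
    ∑ k, ψ (γ (k + a)) * conj (ψ (γ k)) * χ k = ∑ k, ψ (((γ a : F) - 1) * γ k) * χ k := by
  refine sum_congr rfl fun k _ => ?_
  rw [← AddChar.map_neg_eq_conj, ← AddChar.map_add_eq_mul]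
  congr 2
  rw [hγ.add]; push_cast; ring

theorem gauss_shift (hγ : IsExp γ) {ψ : AddChar F ℂ} (hψ : ψ.IsPrimitive) (a : G)
    {χ : AddChar G ℂ} (hχ : χ ≠ 1) :
    ‖(∑ k, ψ (γ (k + a)) * χ k) + ∑ k, conj (ψ (γ k)) * χ k‖ ≤ 2 * Real.sqrt (Fintype.card F) := by
  have h1 : ∑ k, ψ (γ (k + a)) * χ k = ∑ k, ψ ((γ a : F) * γ k) * χ k := by
    refine sum_congr rfl fun k _ => ?_
    congr 2
    rw [hγ.add]; push_cast; ring
  have h2 : ∑ k, conj (ψ (γ k)) * χ k = ∑ k, ψ ((-1 : F) * γ k) * χ k := by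
    refine sum_congr rfl fun k _ => ?_
    rw [← AddChar.map_neg_eq_conj, neg_one_mul]
  rw [h1, h2]
  refine (norm_add_le _ _).trans ?_
  rw [norm_gauss hγ hψ (Units.ne_zero (γ a)) hχ, norm_gauss hγ hψ (neg_ne_zero.2 one_ne_zero) hχ]
  linarith

theorem gauss_one (hγ : IsExp γ) {ψ : AddChar F ℂ} (hψ : ψ.IsPrimitive) (a : G) :
    (∑ k, ψ (γ (k + a)) * (1 : AddChar G ℂ) k) + ∑ k, conj (ψ (γ k)) * (1 : AddChar G ℂ) k = -2 := by
  have h1 : ∑ k, ψ (γ (k + a)) * (1 : AddChar G ℂ) k = ∑ k, ψ ((γ a : F) * γ k) := by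
    refine sum_congr rfl fun k _ => ?_
    rw [AddChar.one_apply, mul_one]
    congr 1
    rw [hγ.add]; push_cast; ring
  have h2 : ∑ k, conj (ψ (γ k)) * (1 : AddChar G ℂ) k = ∑ k, ψ ((-1 : F) * γ k) := by
    refine sum_congr rfl fun k _ => ?_
    rw [AddChar.one_apply, mul_one, ← AddChar.map_neg_eq_conj, neg_one_mul]
  rw [h1, h2, sum_psi hγ hψ (Units.ne_zero (γ a)), sum_psi hγ hψ (neg_ne_zero.2 one_ne_zero)]
  ring

theorem norm_c_le (ψ : AddChar F ℂ) (a : G) (χ : AddChar G ℂ) :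
    ‖ψ (γ a) + conj (ψ (γ (-a))) * χ (-a)‖ ≤ 2 := by
  refine (norm_add_le _ _).trans ?_
  rw [norm_mul, RCLike.norm_conj, AddChar.norm_apply, AddChar.norm_apply, AddChar.norm_apply]
  norm_num

theorem norm_h_le (a : G) (χ : AddChar G ℂ) : ‖χ (-a) + 1‖ ≤ 2 := by
  refine (norm_add_le _ _).trans ?_
  rw [AddChar.norm_apply, norm_one]
  norm_num

theorem ov_bound (hγ : IsExp γ) {ψ : AddChar F ℂ} (hψ : ψ.IsPrimitive) {t s : ℝ} (ht : 0 < t)
    (ht1 : t ≤ 1) (htd : t ^ 4 * Fintype.card G = 1) (hs : Real.sqrt (Fintype.card F) * t ^ 2 = s)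
    (hs1 : 1 ≤ s) (a : G) (χ : AddChar G ℂ) (h : a ≠ 0 ∨ χ ≠ 1) :
    |‖ov (vec ψ γ t) a χ‖ - t ^ 2| ≤ t ^ 2 * ((s - 1) + 2 * t * (1 + s) + 3 * t ^ 2) := by
  have hnt : ∀ n : ℕ, ‖(t : ℂ) ^ n‖ = t ^ n := fun n => by
    rw [norm_pow, Complex.norm_real, Real.norm_of_nonneg ht.le]
  have hc := norm_c_le (γ := γ) ψ a χ
  have hh := norm_h_le a χ
  rw [ov_vec]
  set c : ℂ := ψ (γ a) + conj (ψ (γ (-a))) * χ (-a) with hcdef
  set h' : ℂ := χ (-a) + 1 with hhdef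
  by_cases hχ : χ = 1
  · have ha : a ≠ 0 := by
      rcases h with h | h
      · exact h
      · exact absurd hχ h
    subst hχ
    have h1 : ∑ k, ψ (γ (k + a)) * conj (ψ (γ k)) * (1 : AddChar G ℂ) k = -1 := by
      rw [p_corr hγ]
      have h2 : ((γ a : F) - 1) ≠ 0 := by
        intro h2
        apply ha
        apply hγ.bij.1
        rw [hγ.zero]
        exact Units.ext (sub_eq_zero.1 h2)
      rw [← sum_psi hγ hψ h2]
      exact sum_congr rfl fun k _ => by rw [AddChar.one_apply, mul_one]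
    have h3 : ∑ k : G, (1 : AddChar G ℂ) k = Fintype.card G := by simp
    have htd' : (t : ℂ) ^ 4 * Fintype.card G = 1 := by exact_mod_cast htd
    rw [h1, h3, gauss_one hγ hψ, if_neg ha]
    have h4 : |‖(t : ℂ) ^ 4 * -1 + (t : ℂ) ^ 2 * 0 + (t : ℂ) ^ 6 * Fintype.card G +
        (t : ℂ) ^ 3 * c + (t : ℂ) ^ 5 * -2 + (t : ℂ) ^ 4 * h'‖ - t ^ 2| ≤
        t ^ 4 + t ^ 3 * 2 + t ^ 5 * 2 + t ^ 4 * 2 := by
      refine abs_norm_sub_le (m := (t : ℂ) ^ 2) (hnt 2) ?_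
      have e1 : (t : ℂ) ^ 4 * -1 + (t : ℂ) ^ 2 * 0 + (t : ℂ) ^ 6 * Fintype.card G +
          (t : ℂ) ^ 3 * c + (t : ℂ) ^ 5 * -2 + (t : ℂ) ^ 4 * h' - (t : ℂ) ^ 2 =
          -(t : ℂ) ^ 4 + (t : ℂ) ^ 3 * c + (t : ℂ) ^ 5 * -2 + (t : ℂ) ^ 4 * h' := by
        linear_combination (t : ℂ) ^ 2 * htd'
      rw [e1]
      refine (norm_add_le _ _).trans (add_le_add ((norm_add_le _ _).trans (add_le_add
        ((norm_add_le _ _).trans (add_le_add ?_ ?_)) ?_)) ?_)
      · rw [norm_neg, hnt]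
      · rw [norm_mul, hnt]
        gcongr
      · rw [norm_mul, hnt, norm_neg]
        norm_num
      · rw [norm_mul, hnt]
        gcongr
    refine h4.trans ?_
    have h5 : t ^ 4 + t ^ 3 * 2 + t ^ 5 * 2 + t ^ 4 * 2 = t ^ 2 * (2 * t + 2 * t ^ 3 + 3 * t ^ 2) := by
      ring
    rw [h5]
    refine mul_le_mul_of_nonneg_left ?_ (by positivity)
    have h6 : t ^ 3 ≤ t := by nlinarith [mul_pos ht ht]
    nlinarith [mul_le_mul_of_nonneg_left hs1 ht.le]
  · have hW : ∑ k, χ k = 0 := sum_char hχ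
    have hG := gauss_shift hγ hψ a hχ
    set g : ℂ := (∑ k, ψ (γ (k + a)) * χ k) + ∑ k, conj (ψ (γ k)) * χ k with hg
    have hG' : t ^ 5 * ‖g‖ ≤ t ^ 3 * (2 * s) := by
      rw [← hs]
      calc t ^ 5 * ‖g‖ ≤ t ^ 5 * (2 * Real.sqrt (Fintype.card F)) := by gcongr
        _ = t ^ 3 * (2 * (Real.sqrt (Fintype.card F) * t ^ 2)) := by ring
    rw [hW, mul_zero, add_zero]
    by_cases ha : a = 0
    · have h1 : ∑ k, ψ (γ (k + a)) * conj (ψ (γ k)) * χ k = 0 := by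
        rw [p_corr hγ, ha, hγ.zero]
        simp only [Units.val_one, sub_self, zero_mul, AddChar.map_zero_eq_one, one_mul]
        exact hW
      rw [h1, if_pos ha]
      have h4 : |‖(t : ℂ) ^ 4 * 0 + (t : ℂ) ^ 2 * 1 + (t : ℂ) ^ 3 * c + (t : ℂ) ^ 5 * g +
          (t : ℂ) ^ 4 * h'‖ - t ^ 2| ≤ t ^ 3 * 2 + t ^ 3 * (2 * s) + t ^ 4 * 2 := by
        refine abs_norm_sub_le (m := (t : ℂ) ^ 2) (hnt 2) ?_
        have e1 : (t : ℂ) ^ 4 * 0 + (t : ℂ) ^ 2 * 1 + (t : ℂ) ^ 3 * c + (t : ℂ) ^ 5 * g +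
          (t : ℂ) ^ 4 * h' - (t : ℂ) ^ 2 = (t : ℂ) ^ 3 * c + (t : ℂ) ^ 5 * g + (t : ℂ) ^ 4 * h' := by
          ring
        rw [e1]
        refine (norm_add_le _ _).trans (add_le_add ((norm_add_le _ _).trans (add_le_add ?_ ?_)) ?_)
        · rw [norm_mul, hnt]
          gcongr
        · rw [norm_mul, hnt]
          exact hG'
        · rw [norm_mul, hnt]
          gcongr
      refine h4.trans ?_
      have h5 : t ^ 3 * 2 + t ^ 3 * (2 * s) + t ^ 4 * 2 = t ^ 2 * (2 * t * (1 + s) + 2 * t ^ 2) := by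
        ring
      rw [h5]
      refine mul_le_mul_of_nonneg_left ?_ (by positivity)
      nlinarith [sq_nonneg t]
    · have h2 : ((γ a : F) - 1) ≠ 0 := by
        intro h2
        apply ha
        apply hγ.bij.1
        rw [hγ.zero]
        exact Units.ext (sub_eq_zero.1 h2)
      have h1 : ‖∑ k, ψ (γ (k + a)) * conj (ψ (γ k)) * χ k‖ = Real.sqrt (Fintype.card F) := by
        rw [p_corr hγ, norm_gauss hγ hψ h2 hχ]
      set P : ℂ := ∑ k, ψ (γ (k + a)) * conj (ψ (γ k)) * χ k with hP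
      rw [if_neg ha]
      have h4 : |‖(t : ℂ) ^ 4 * P + (t : ℂ) ^ 2 * 0 + (t : ℂ) ^ 3 * c + (t : ℂ) ^ 5 * g +
          (t : ℂ) ^ 4 * h'‖ - t ^ 2 * s| ≤ t ^ 3 * 2 + t ^ 3 * (2 * s) + t ^ 4 * 2 := by
        refine abs_norm_sub_le (m := (t : ℂ) ^ 4 * P) ?_ ?_
        · rw [norm_mul, hnt, h1, ← hs]
          ring
        have e1 : (t : ℂ) ^ 4 * P + (t : ℂ) ^ 2 * 0 + (t : ℂ) ^ 3 * c + (t : ℂ) ^ 5 * g +
          (t : ℂ) ^ 4 * h' - (t : ℂ) ^ 4 * P =
          (t : ℂ) ^ 3 * c + (t : ℂ) ^ 5 * g + (t : ℂ) ^ 4 * h' := by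
          ring
        rw [e1]
        refine (norm_add_le _ _).trans (add_le_add ((norm_add_le _ _).trans (add_le_add ?_ ?_)) ?_)
        · rw [norm_mul, hnt]
          gcongr
        · rw [norm_mul, hnt]
          exact hG'
        · rw [norm_mul, hnt]
          gcongr
      have h6 : ∀ z : ℝ, |z - t ^ 2| ≤ |z - t ^ 2 * s| + t ^ 2 * (s - 1) := by
        intro z
        have h7 : z - t ^ 2 = (z - t ^ 2 * s) + t ^ 2 * (s - 1) := by ring
        rw [h7]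
        refine (abs_add_le _ _).trans (add_le_add le_rfl ?_)
        rw [abs_of_nonneg (mul_nonneg (by positivity) (by linarith))]
      refine (h6 _).trans ((add_le_add h4 le_rfl).trans ?_)
      have h5 : t ^ 3 * 2 + t ^ 3 * (2 * s) + t ^ 4 * 2 + t ^ 2 * (s - 1) =
          t ^ 2 * ((s - 1) + 2 * t * (1 + s) + 2 * t ^ 2) := by
        ring
      rw [h5]
      refine mul_le_mul_of_nonneg_left ?_ (by positivity)
      nlinarith [sq_nonneg t]

theorem ov_self (φ : G → ℂ) : ov φ 0 1 = ((∑ k, ‖φ k‖ ^ 2 : ℝ) : ℂ) := by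
  unfold ov
  push_cast
  refine sum_congr rfl fun k _ => ?_
  change φ (k + 0) * conj (φ k) * (1 : ℂ) = _
  rw [add_zero, mul_one, Complex.mul_conj, Complex.normSq_eq_norm_sq]
  push_cast
  rfl

theorem norm_ov_le (φ : G → ℂ) (a : G) (χ : AddChar G ℂ) : ‖ov φ a χ‖ ≤ ∑ k, ‖φ k‖ ^ 2 := by
  have h1 : ∑ k, ‖φ (k + a)‖ ^ 2 = ∑ k, ‖φ k‖ ^ 2 :=
    Equiv.sum_comp (Equiv.addRight a) (fun k => ‖φ k‖ ^ 2)
  have h2 : ‖ov φ a χ‖ ≤ ∑ k, (‖φ (k + a)‖ ^ 2 + ‖φ k‖ ^ 2) / 2 := by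
    refine norm_sum_le_of_le _ fun k _ => ?_
    rw [norm_mul, norm_mul, RCLike.norm_conj, AddChar.norm_apply, mul_one]
    nlinarith [sq_nonneg (‖φ (k + a)‖ - ‖φ k‖)]
  rw [← Finset.sum_div, sum_add_distrib, h1] at h2
  linarith

theorem norm_vec_sq (hγ : IsExp γ) {ψ : AddChar F ℂ} (hψ : ψ.IsPrimitive) {t : ℝ}
    (htd : t ^ 4 * Fintype.card G = 1) :
    ∑ k, ‖vec ψ γ t k‖ ^ 2 = 1 + 2 * t ^ 2 + t ^ 3 * (2 * (ψ 1).re) - 2 * t ^ 5 + 2 * t ^ 4 := by
  have h1 := ov_self (vec ψ γ t)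
  rw [ov_vec, gauss_one hγ hψ, p_corr hγ] at h1
  have h2 : ∑ k, ψ (((γ 0 : F) - 1) * γ k) * (1 : AddChar G ℂ) k = Fintype.card G := by
    rw [hγ.zero]
    simp
  have h3 : ∑ k : G, (1 : AddChar G ℂ) k = Fintype.card G := by simp
  have htd' : (t : ℂ) ^ 4 * Fintype.card G = 1 := by exact_mod_cast htd
  rw [h2, h3, if_pos rfl, neg_zero, hγ.zero, AddChar.map_zero_eq_one, Units.val_one, mul_one,
    mul_one, Complex.add_conj] at h1
  have h4 : ((∑ k, ‖vec ψ γ t k‖ ^ 2 : ℝ) : ℂ) =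
      ((1 + 2 * t ^ 2 + t ^ 3 * (2 * (ψ 1).re) - 2 * t ^ 5 + 2 * t ^ 4 : ℝ) : ℂ) := by
    rw [← h1]
    push_cast
    linear_combination (1 + (t : ℂ) ^ 2) * htd'
  exact_mod_cast h4

theorem final_real {t s β N : ℝ} (ht : 0 < t) (ht1 : t ≤ 1) (hs : s ^ 2 = 1 + t ^ 4) (hs1 : 1 ≤ s)
    (hβ : |β - 1| ≤ (s - 1) + 2 * t * (1 + s) + 3 * t ^ 2) (hβ0 : 0 ≤ β) (hN1 : 1 ≤ N)
    (hN2 : N ≤ 1 + 2 * t ^ 2 + 2 * t ^ 3 + 2 * t ^ 4) (hcs : β * t ^ 2 ≤ N) :
    |s * β / N - 1| ≤ 4 * t + 6 * t ^ 2 := by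
  have hN0 : 0 < N := by linarith
  have hs2 : s ≤ 1 + t ^ 4 / 2 := by
    have : 0 ≤ t ^ 4 := by positivity
    nlinarith
  obtain ⟨hβ1, hβ2⟩ := abs_le.1 hβ
  rw [abs_le]
  constructor
  · rcases le_total (1 / 5) t with h | h
    · have h1 : 0 ≤ s * β / N := by positivity
      have h2 : 1 ≤ 4 * t + 6 * t ^ 2 := by nlinarith
      linarith
    · have h0 : 0 ≤ t * (1 - 5 * t) := mul_nonneg ht.le (by linarith)
      have h1 : N - s * β ≤ (4 * t + 6 * t ^ 2) * N := by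
        have h3 : β ≤ s * β := le_mul_of_one_le_left hβ0 hs1
        have h4 : 2 * t * (1 + s) ≤ 2 * t * (2 + t ^ 4 / 2) :=
          mul_le_mul_of_nonneg_left (by linarith) (by positivity)
        have h5 : N - s * β ≤ (2 * t ^ 2 + 2 * t ^ 3 + 2 * t ^ 4) + t ^ 4 / 2 +
            2 * t * (2 + t ^ 4 / 2) + 3 * t ^ 2 := by linarith
        have h6 : (4 * t + 6 * t ^ 2) * 1 ≤ (4 * t + 6 * t ^ 2) * N :=
          mul_le_mul_of_nonneg_left hN1 (by positivity)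
        have h7 : (2 * t ^ 2 + 2 * t ^ 3 + 2 * t ^ 4) + t ^ 4 / 2 +
            2 * t * (2 + t ^ 4 / 2) + 3 * t ^ 2 ≤ 4 * t + 6 * t ^ 2 := by
          have h8 : t ^ 3 ≤ t ^ 2 * (1 / 5) := by
            have : t ^ 3 = t ^ 2 * t := by ring
            rw [this]
            exact mul_le_mul_of_nonneg_left h (by positivity)
          have h9 : t ^ 4 ≤ t ^ 2 * (1 / 25) := by
            have : t ^ 4 = t ^ 2 * t ^ 2 := by ring
            rw [this]
            refine mul_le_mul_of_nonneg_left ?_ (by positivity)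
            nlinarith
          have h10 : t ^ 5 ≤ t ^ 4 * (1 / 5) := by
            have : t ^ 5 = t ^ 4 * t := by ring
            rw [this]
            exact mul_le_mul_of_nonneg_left h (by positivity)
          have h11 : 0 ≤ t ^ 2 := by positivity
          nlinarith
        linarith
      have h2 : 1 - (4 * t + 6 * t ^ 2) ≤ s * β / N := by
        rw [le_div_iff₀ hN0]
        linarith
      linarith
  · rcases le_total t (4 / 5) with h | h
    · have h1 : s * β ≤ 1 + (4 * t + 6 * t ^ 2) := by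
        have h2 : s * β ≤ s * (s + 2 * t * (1 + s) + 3 * t ^ 2) :=
          mul_le_mul_of_nonneg_left (by linarith) (by linarith)
        have h3 : s * (s + 2 * t * (1 + s) + 3 * t ^ 2) =
            1 + t ^ 4 + 2 * t * (1 + t ^ 4) + s * (2 * t + 3 * t ^ 2) := by
          rw [← hs]; ring
        have h4 : s * (2 * t + 3 * t ^ 2) ≤ (1 + t ^ 4 / 2) * (2 * t + 3 * t ^ 2) :=
          mul_le_mul_of_nonneg_right hs2 (by positivity)
        have h5 : t ^ 4 + 2 * t * (1 + t ^ 4) + (1 + t ^ 4 / 2) * (2 * t + 3 * t ^ 2) ≤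
            4 * t + 6 * t ^ 2 := by
          have e : 4 * t + 6 * t ^ 2 - (t ^ 4 + 2 * t * (1 + t ^ 4) +
              (1 + t ^ 4 / 2) * (2 * t + 3 * t ^ 2)) =
              t ^ 2 * (3 - t ^ 2 - 3 * t ^ 3 - (3 / 2) * t ^ 4) := by ring
          have h6 : t ^ 2 ≤ (4 / 5) ^ 2 := pow_le_pow_left₀ ht.le h 2
          have h7 : t ^ 3 ≤ (4 / 5) ^ 3 := pow_le_pow_left₀ ht.le h 3
          have h8 : t ^ 4 ≤ (4 / 5) ^ 4 := pow_le_pow_left₀ ht.le h 4
          have : 0 ≤ t ^ 2 * (3 - t ^ 2 - 3 * t ^ 3 - (3 / 2) * t ^ 4) := by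
            refine mul_nonneg (by positivity) ?_
            norm_num at h6 h7 h8
            linarith
          linarith
        linarith
      have h2 : s * β / N ≤ 1 + (4 * t + 6 * t ^ 2) := by
        rw [div_le_iff₀ hN0]
        have : 1 + (4 * t + 6 * t ^ 2) ≤ (1 + (4 * t + 6 * t ^ 2)) * N :=
          le_mul_of_one_le_right (by positivity) hN1
        linarith
      linarith
    · have h1 : s ≤ t ^ 2 * (1 + (4 * t + 6 * t ^ 2)) := by
        have h2 : s ≤ 3 / 2 := by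
          have : t ^ 4 ≤ 1 := pow_le_one₀ ht.le ht1
          linarith
        have h3 : (4 / 5 : ℝ) ^ 2 ≤ t ^ 2 := pow_le_pow_left₀ (by norm_num) h 2
        have h4 : (16 / 25 : ℝ) * (1 + (4 * (4 / 5) + 6 * (16 / 25))) ≤
            t ^ 2 * (1 + (4 * t + 6 * t ^ 2)) := by
          refine mul_le_mul (by linarith) ?_ (by norm_num) (by positivity)
          linarith
        norm_num at h4
        linarith
      have h2 : s * β / N ≤ 1 + (4 * t + 6 * t ^ 2) := by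
        rw [div_le_iff₀ hN0]
        have h3 : s * β ≤ t ^ 2 * (1 + (4 * t + 6 * t ^ 2)) * β := mul_le_mul_of_nonneg_right h1 hβ0
        have h4 : (1 + (4 * t + 6 * t ^ 2)) * (β * t ^ 2) ≤ (1 + (4 * t + 6 * t ^ 2)) * N :=
          mul_le_mul_of_nonneg_left hcs (by positivity)
        linarith
      linarith

/-- **Near equiangular Weyl-Heisenberg orbits in dimension `q - 1`.** -/
theorem near_mult (hγ : IsExp γ) (hd : 2 ≤ Fintype.card G) :
    ∃ φ : G → ℂ, ∑ k, ‖φ k‖ ^ 2 = 1 ∧ ∀ (a : G) (χ : AddChar G ℂ), (a ≠ 0 ∨ χ ≠ 1) →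
      |Real.sqrt (Fintype.card G + 1) * ‖∑ k, φ (k + a) * conj (φ k) * χ k‖ - 1| ≤
        4 * (Fintype.card G : ℝ) ^ (-(1 / 4) : ℝ) + 6 * (Fintype.card G : ℝ) ^ (-(1 / 2) : ℝ) := by
  obtain ⟨ψ, hψ1⟩ : ∃ ψ : AddChar F ℂ, ψ 1 ≠ 1 := AddChar.exists_apply_ne_zero.2 one_ne_zero
  have hψ : ψ.IsPrimitive := AddChar.IsPrimitive.of_ne_one (by
    rintro rfl
    exact hψ1 rfl)
  set d : ℝ := (Fintype.card G : ℝ) with hddef
  have hd2 : (2 : ℝ) ≤ d := by
    rw [hddef]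
    exact_mod_cast hd
  have hd0 : 0 < d := by linarith
  set t : ℝ := d ^ (-(1 / 4) : ℝ) with ht
  have ht0 : 0 < t := Real.rpow_pos_of_pos hd0 _
  have ht4 : t ^ 4 * d = 1 := by
    rw [ht, ← Real.rpow_natCast, ← Real.rpow_mul hd0.le]
    norm_num
    rw [Real.rpow_neg_one]
    exact inv_mul_cancel₀ hd0.ne'
  have ht1 : t ≤ 1 := Real.rpow_le_one_of_one_le_of_nonpos (by linarith) (by norm_num)
  have ht2' : t ^ 2 = d ^ (-(1 / 2) : ℝ) := by
    rw [ht, ← Real.rpow_natCast, ← Real.rpow_mul hd0.le]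
    norm_num
  have hq : (Fintype.card F : ℝ) = d + 1 := by
    have h1 : ((d + 1 : ℝ) : ℂ) = ((Fintype.card F : ℝ) : ℂ) := by
      rw [hddef]
      push_cast
      rw [hγ.card]
      ring
    exact_mod_cast h1.symm
  set s : ℝ := Real.sqrt (Fintype.card F) * t ^ 2 with hsdef
  have hs2 : s ^ 2 = 1 + t ^ 4 := by
    rw [hsdef, mul_pow, Real.sq_sqrt (Nat.cast_nonneg _), hq]
    linear_combination ht4
  have hs0 : 0 ≤ s := by positivity
  have hs1 : 1 ≤ s := by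
    have : 0 ≤ t ^ 4 := by positivity
    nlinarith
  set N : ℝ := ∑ k, ‖vec ψ γ t k‖ ^ 2 with hN
  have hNeq := norm_vec_sq hγ hψ ht4
  rw [← hN] at hNeq
  have hre := abs_le.1 ((Complex.abs_re_le_norm (ψ 1)).trans (AddChar.norm_apply ψ 1).le)
  have ht5 : t ^ 5 ≤ t ^ 4 := pow_le_pow_of_le_one ht0.le ht1 (by norm_num)
  have ht3 : t ^ 3 ≤ t ^ 2 := pow_le_pow_of_le_one ht0.le ht1 (by norm_num)
  have h3p : 0 ≤ t ^ 3 := by positivity
  have h5p : 0 ≤ t ^ 5 := by positivity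
  have hN1 : 1 ≤ N := by
    rw [hNeq]
    have := mul_le_mul_of_nonneg_left hre.1 h3p
    linarith
  have hN2 : N ≤ 1 + 2 * t ^ 2 + 2 * t ^ 3 + 2 * t ^ 4 := by
    rw [hNeq]
    have := mul_le_mul_of_nonneg_left hre.2 h3p
    linarith
  have hN0 : 0 < N := by linarith
  have hsN : Real.sqrt N ^ 2 = N := Real.sq_sqrt hN0.le
  have hsN0 : 0 < Real.sqrt N := Real.sqrt_pos.2 hN0
  refine ⟨fun k => vec ψ γ t k / (Real.sqrt N : ℂ), ?_, fun a χ h => ?_⟩
  · have : ∀ k, ‖vec ψ γ t k / (Real.sqrt N : ℂ)‖ ^ 2 = ‖vec ψ γ t k‖ ^ 2 / N := by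
      intro k
      rw [norm_div, Complex.norm_real, Real.norm_of_nonneg hsN0.le, div_pow, hsN]
    rw [sum_congr rfl fun k _ => this k, ← sum_div, ← hN, div_self hN0.ne']
  · have h1 : ∑ k, vec ψ γ t (k + a) / (Real.sqrt N : ℂ) * conj (vec ψ γ t k / (Real.sqrt N : ℂ)) *
        χ k = ov (vec ψ γ t) a χ / (N : ℂ) := by
      unfold ov
      rw [sum_div]
      refine sum_congr rfl fun k _ => ?_
      rw [map_div₀ (starRingEnd ℂ), Complex.conj_ofReal, div_mul_div_comm, ← Complex.ofReal_mul,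
        ← pow_two, hsN]
      ring
    rw [h1, norm_div, Complex.norm_real, Real.norm_of_nonneg hN0.le, ← hq]
    have h2 := ov_bound hγ hψ ht0 ht1 ht4 hsdef.symm hs1 a χ h
    have h3 := norm_ov_le (vec ψ γ t) a χ
    rw [← hN] at h3
    set B : ℝ := ‖ov (vec ψ γ t) a χ‖ with hB
    have hB0 : 0 ≤ B := norm_nonneg _
    have ht2 : 0 < t ^ 2 := by positivity
    have h4 : |B / t ^ 2 - 1| ≤ (s - 1) + 2 * t * (1 + s) + 3 * t ^ 2 := by
      have e : B / t ^ 2 - 1 = (B - t ^ 2) / t ^ 2 := by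
        field_simp
      rw [e, abs_div, abs_of_pos ht2, div_le_iff₀ ht2, mul_comm _ (t ^ 2)]
      exact h2
    have h5 := final_real ht0 ht1 hs2 hs1 h4 (by positivity) hN1 hN2 (by
      rw [div_mul_cancel₀ _ ht2.ne']
      exact h3)
    have e : s * (B / t ^ 2) / N = Real.sqrt (Fintype.card F) * (B / N) := by
      rw [hsdef]
      field_simp
    rw [e, ht2'] at h5
    exact h5

end Overlap

/-- **Near equiangular orbits of the Weyl-Heisenberg group of `ZMod d`** whenever `d + 1` is a prime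
power. -/
theorem near_zmod_of_primePow {d : ℕ} [NeZero d] (hd : 2 ≤ d) (h : IsPrimePow (d + 1)) :
    ∃ φ : ZMod d → ℂ, ∑ k, ‖φ k‖ ^ 2 = 1 ∧
      ∀ (a : ZMod d) (χ : AddChar (ZMod d) ℂ), (a ≠ 0 ∨ χ ≠ 1) →
        |Real.sqrt (d + 1) * ‖∑ k, φ (k + a) * conj (φ k) * χ k‖ - 1| ≤
          4 * (d : ℝ) ^ (-(1 / 4) : ℝ) + 6 * (d : ℝ) ^ (-(1 / 2) : ℝ) := by
  classical
  obtain ⟨p, n, hp, hn, hpn⟩ := (isPrimePow_nat_iff _).1 h
  have : Fact p.Prime := ⟨hp⟩
  let F := GaloisField p n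
  let _ : Fintype F := Fintype.ofFinite F
  have hF : Fintype.card F = d + 1 := by
    rw [← Nat.card_eq_fintype_card, GaloisField.card p n hn.ne', hpn]
  have hcard : Nat.card Fˣ = d := by
    rw [Nat.card_units, Nat.card_eq_fintype_card, hF]
    simp
  let e0 : Multiplicative (ZMod (Nat.card Fˣ)) ≃* Fˣ := zmodCyclicMulEquiv inferInstance
  have e1 : Multiplicative (ZMod d) ≃* Fˣ := by
    rw [hcard] at e0
    exact e0
  have hγ : IsExp (fun k : ZMod d => e1 (Multiplicative.ofAdd k)) := by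
    refine ⟨e1.bijective.comp Multiplicative.ofAdd.bijective, fun k l => ?_⟩
    rw [ofAdd_add, map_mul]
  have h1 := near_mult hγ (by rw [ZMod.card]; exact hd)
  rw [ZMod.card] at h1
  exact h1

end Pool.Agent.Lib.MP_d0f9e0_co.WHNear
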