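import Mathlib

/-!
# Cubic phases on a finite field of odd characteristic (helper74)

For every finite field `F` of odd characteristic there are a primitive additive character `ψ` and a
function `f : F → ℂ` of modulus one with

* `f (x + a) * conj (f x) = f a * ψ (a * x ^ 2 + a ^ 2 * x)`,
* `f (-x) = conj (f x)`,
* `f (c * x) = f x` whenever `c ^ 3 = 1`.

Characteristic `≠ 3`: `f x = ψ (x ^ 3 / 3)`.  Characteristic `3`: `f x = exp (2 π i C(x) / 9)`, where
`C` is an integral lift of the cubic form `Tr (x ^ 3)` with respect to a basis.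
-/

namespace Pool.Agent.Lib.MP_d0f9e0_co.WHNear

open Finset ComplexConjugate

section Lift

variable {k : ℕ}

/-- The trilinear form over `ZMod 9` with coefficients `t`. -/
def T9 (t : Fin k → Fin k → Fin k → ZMod 9) (X Y Z : Fin k → ZMod 9) : ZMod 9 :=
  ∑ i, ∑ j, ∑ l, t i j l * X i * Y j * Z l

variable (t : Fin k → Fin k → Fin k → ZMod 9)

theorem T9_add1 (X X' Y Z : Fin k → ZMod 9) : T9 t (X + X') Y Z = T9 t X Y Z + T9 t X' Y Z := by
  simp only [T9, Pi.add_apply, mul_add, add_mul, sum_add_distrib]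

theorem T9_add2 (X Y Y' Z : Fin k → ZMod 9) : T9 t X (Y + Y') Z = T9 t X Y Z + T9 t X Y' Z := by
  simp only [T9, Pi.add_apply, mul_add, add_mul, sum_add_distrib]

theorem T9_add3 (X Y Z Z' : Fin k → ZMod 9) : T9 t X Y (Z + Z') = T9 t X Y Z + T9 t X Y Z' := by
  simp only [T9, Pi.add_apply, mul_add, sum_add_distrib]

theorem T9_smul1 (c : ZMod 9) (X Y Z : Fin k → ZMod 9) : T9 t (c • X) Y Z = c * T9 t X Y Z := by
  simp only [T9, Pi.smul_apply, smul_eq_mul, mul_sum]
  refine sum_congr rfl fun i _ => sum_congr rfl fun j _ => sum_congr rfl fun l _ => ?_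
  ring

theorem T9_smul2 (c : ZMod 9) (X Y Z : Fin k → ZMod 9) : T9 t X (c • Y) Z = c * T9 t X Y Z := by
  simp only [T9, Pi.smul_apply, smul_eq_mul, mul_sum]
  refine sum_congr rfl fun i _ => sum_congr rfl fun j _ => sum_congr rfl fun l _ => ?_
  ring

theorem T9_smul3 (c : ZMod 9) (X Y Z : Fin k → ZMod 9) : T9 t X Y (c • Z) = c * T9 t X Y Z := by
  simp only [T9, Pi.smul_apply, smul_eq_mul, mul_sum]
  refine sum_congr rfl fun i _ => sum_congr rfl fun j _ => sum_congr rfl fun l _ => ?_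
  ring

variable {t}

theorem T9_swap12 (ht : ∀ i j l, t i j l = t j i l) (X Y Z : Fin k → ZMod 9) :
    T9 t X Y Z = T9 t Y X Z := by
  unfold T9
  rw [sum_comm]
  refine sum_congr rfl fun i _ => sum_congr rfl fun j _ => sum_congr rfl fun l _ => ?_
  rw [ht j i l]; ring

theorem T9_swap23 (ht : ∀ i j l, t i j l = t i l j) (X Y Z : Fin k → ZMod 9) :
    T9 t X Y Z = T9 t X Z Y := by
  unfold T9
  refine sum_congr rfl fun i _ => ?_
  rw [sum_comm]
  refine sum_congr rfl fun j _ => sum_congr rfl fun l _ => ?_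
  rw [ht i l j]; ring

theorem nine_eq_zero : (9 : ZMod 9) = 0 := by decide

/-- The cubic form is additive up to `3` times the mixed terms. -/
theorem T9_cube_add (h12 : ∀ i j l, t i j l = t j i l) (h23 : ∀ i j l, t i j l = t i l j)
    (X Y : Fin k → ZMod 9) :
    T9 t (X + Y) (X + Y) (X + Y)
      = T9 t X X X + T9 t Y Y Y + 3 * (T9 t X X Y + T9 t X Y Y) := by
  simp only [T9_add1, T9_add2, T9_add3]
  have e1 : T9 t X Y X = T9 t X X Y := T9_swap23 h23 _ _ _
  have e2 : T9 t Y X X = T9 t X X Y := by rw [T9_swap12 h12, T9_swap23 h23]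
  have e3 : T9 t Y X Y = T9 t X Y Y := T9_swap12 h12 _ _ _
  have e4 : T9 t Y Y X = T9 t X Y Y := by rw [T9_swap23 h23, T9_swap12 h12]
  rw [e1, e2, e3, e4]; ring

/-- The cubic form does not see multiples of `3`. -/
theorem T9_cube_three (h12 : ∀ i j l, t i j l = t j i l) (h23 : ∀ i j l, t i j l = t i l j)
    (X W : Fin k → ZMod 9) :
    T9 t (X + (3 : ZMod 9) • W) (X + (3 : ZMod 9) • W) (X + (3 : ZMod 9) • W) = T9 t X X X := by
  rw [T9_cube_add h12 h23]
  simp only [T9_smul1, T9_smul2, T9_smul3]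
  have : T9 t X X X + 3 * (3 * (3 * T9 t W W W)) + 3 * (3 * T9 t X X W + 3 * (3 * T9 t X W W))
      = T9 t X X X + 9 * (3 * T9 t W W W + T9 t X X W + 3 * T9 t X W W) := by ring
  rw [this, nine_eq_zero]; ring

/-- Reduction modulo three. -/
def red9 : ZMod 9 →+* ZMod 3 := ZMod.castHom (by norm_num : 3 ∣ 9) (ZMod 3)

theorem exists_three_mul (z : ZMod 9) (hz : red9 z = 0) : ∃ w, z = 3 * w := by
  revert z; unfold red9; decide

theorem std_three_mul (z : ZMod 9) :
    ZMod.stdAddChar (N := 9) (3 * z) = ZMod.stdAddChar (N := 3) (red9 z) := by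
  obtain ⟨j, rfl⟩ := ZMod.intCast_surjective z
  have h1 : (3 * (j : ZMod 9)) = ((3 * j : ℤ) : ZMod 9) := by push_cast; ring
  have h2 : red9 (j : ZMod 9) = ((j : ℤ) : ZMod 3) := by
    rw [map_intCast]
  rw [h1, h2, ZMod.stdAddChar_coe, ZMod.stdAddChar_coe]
  congr 1
  push_cast
  ring

end Lift

section Three

noncomputable section

variable {F : Type*} [Field F] [Algebra (ZMod 3) F] {k : ℕ} (b : Module.Basis (Fin k) (ZMod 3) F)
  (lam : F →ₗ[ZMod 3] ZMod 3)

/-- Lift of the coordinates to `ZMod 9`. -/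
def sec (x : F) : Fin k → ZMod 9 := fun i => (((b.repr x i).val : ℕ) : ZMod 9)

theorem red9_sec (x : F) (i : Fin k) : red9 (sec b x i) = b.repr x i := by
  unfold sec
  rw [map_natCast, ZMod.natCast_zmod_val]

/-- Lift of the structure constants. -/
def tco (i j l : Fin k) : ZMod 9 := (((lam (b i * b j * b l)).val : ℕ) : ZMod 9)

theorem red9_tco (i j l : Fin k) : red9 (tco b lam i j l) = lam (b i * b j * b l) := by
  unfold tco
  rw [map_natCast, ZMod.natCast_zmod_val]

theorem tco12 (i j l : Fin k) : tco b lam i j l = tco b lam j i l := by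
  unfold tco; rw [mul_comm (b i) (b j)]

theorem tco23 (i j l : Fin k) : tco b lam i j l = tco b lam i l j := by
  unfold tco; rw [mul_right_comm]

theorem red9_T9 (x y z : F) :
    red9 (T9 (tco b lam) (sec b x) (sec b y) (sec b z)) = lam (x * y * z) := by
  have key : x * y * z = ∑ i, ∑ j, ∑ l,
      (b.repr x i * b.repr y j * b.repr z l) • (b i * b j * b l) := by
    conv_lhs => rw [← b.sum_repr x, ← b.sum_repr y, ← b.sum_repr z]
    rw [sum_mul_sum, sum_mul]
    refine sum_congr rfl fun i _ => ?_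
    rw [sum_mul_sum]
    refine sum_congr rfl fun j _ => sum_congr rfl fun l _ => ?_
    rw [smul_mul_smul_comm, smul_mul_smul_comm]
  rw [key]
  unfold T9
  simp only [map_sum, map_mul, red9_sec, red9_tco, map_smul, smul_eq_mul]
  refine sum_congr rfl fun i _ => sum_congr rfl fun j _ => sum_congr rfl fun l _ => ?_
  ring

theorem exists_lift {X Y : Fin k → ZMod 9} (h : ∀ i, red9 (X i) = red9 (Y i)) :
    ∃ W : Fin k → ZMod 9, X = Y + (3 : ZMod 9) • W := by
  have : ∀ i, ∃ w, X i - Y i = 3 * w := fun i =>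
    exists_three_mul _ (by rw [map_sub, h i, sub_self])
  choose W hW using this
  refine ⟨W, funext fun i => ?_⟩
  simp only [Pi.add_apply, Pi.smul_apply, smul_eq_mul]
  rw [← hW i]; ring

/-- The `ZMod 9`-valued cubic form on `F`. -/
def cub (x : F) : ZMod 9 := T9 (tco b lam) (sec b x) (sec b x) (sec b x)

theorem cub_add (x y : F) : ∃ w, red9 w = lam (x * x * y + x * y * y) ∧
    cub b lam (x + y) = cub b lam x + cub b lam y + 3 * w := by
  obtain ⟨W, hW⟩ := exists_lift (X := sec b (x + y)) (Y := sec b x + sec b y) (fun i => by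
    rw [Pi.add_apply, map_add, red9_sec, red9_sec, red9_sec, map_add, Finsupp.add_apply])
  refine ⟨T9 (tco b lam) (sec b x) (sec b x) (sec b y)
    + T9 (tco b lam) (sec b x) (sec b y) (sec b y), ?_, ?_⟩
  · rw [map_add, red9_T9, red9_T9, map_add]
  · unfold cub
    rw [hW, T9_cube_three (tco12 b lam) (tco23 b lam), T9_cube_add (tco12 b lam) (tco23 b lam)]

theorem cub_neg (x : F) : cub b lam (-x) = - cub b lam x := by
  obtain ⟨W, hW⟩ := exists_lift (X := sec b (-x)) (Y := (-1 : ZMod 9) • sec b x) (fun i => by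
    rw [Pi.smul_apply, smul_eq_mul, map_mul, red9_sec, red9_sec, map_neg, map_neg, map_one,
      Finsupp.neg_apply, neg_one_mul])
  unfold cub
  rw [hW, T9_cube_three (tco12 b lam) (tco23 b lam), T9_smul1, T9_smul2, T9_smul3]
  ring

end

end Three

section Main

variable {F : Type*} [Field F]

/-- A cubic phase `f` on `F` with respect to the additive character `ψ`. -/
structure IsCubic (ψ : AddChar F ℂ) (f : F → ℂ) : Prop where
  norm : ∀ x, ‖f x‖ = 1
  neg : ∀ x, f (-x) = conj (f x)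
  rot : ∀ c, c ^ 3 = 1 → ∀ x, f (c * x) = f x
  mul : ∀ a x, f (x + a) * conj (f x) = f a * ψ (a * x ^ 2 + a ^ 2 * x)

theorem exists_cubic_three [Finite F] [CharP F 3] :
    ∃ (ψ : AddChar F ℂ) (f : F → ℂ), ψ.IsPrimitive ∧ IsCubic ψ f := by
  let _ : Algebra (ZMod 3) F := ZMod.algebra F 3
  have : Module.Finite (ZMod 3) F := Module.Finite.of_finite
  let b := Module.finBasis (ZMod 3) F
  obtain ⟨lam, hlam⟩ : ∃ lam : F →ₗ[ZMod 3] ZMod 3, lam 1 ≠ 0 := by
    by_contra h
    push Not at h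
    exact one_ne_zero ((Module.forall_dual_apply_eq_zero_iff (ZMod 3) (1 : F)).1 h)
  let ψ : AddChar F ℂ := (ZMod.stdAddChar (N := 3)).compAddMonoidHom lam.toAddMonoidHom
  have hψ : ∀ y, ψ y = ZMod.stdAddChar (N := 3) (lam y) := fun y => rfl
  let f : F → ℂ := fun x => ZMod.stdAddChar (N := 9) (cub b lam x)
  have hf : ∀ x, f x = ZMod.stdAddChar (N := 9) (cub b lam x) := fun x => rfl
  have hnorm : ∀ x, ‖f x‖ = 1 := fun x => AddChar.norm_apply _ _
  have hadd : ∀ x y, f (x + y) = f x * f y * ψ (x * x * y + x * y * y) := by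
    intro x y
    obtain ⟨w, hw, hc⟩ := cub_add b lam x y
    rw [hf, hc, AddChar.map_add_eq_mul, AddChar.map_add_eq_mul, std_three_mul, hw, ← hf, ← hf,
      ← hψ]
  refine ⟨ψ, f, AddChar.IsPrimitive.of_ne_one ?_, hnorm, ?_, ?_, ?_⟩
  · intro h
    have h1 : ZMod.stdAddChar (N := 3) (lam 1) = 1 := by
      rw [← hψ, h]; rfl
    have h2 : ZMod.stdAddChar (N := 3) (lam 1) = ZMod.stdAddChar (N := 3) 0 := by
      rw [h1, AddChar.map_zero_eq_one]
    exact hlam (ZMod.injective_stdAddChar h2)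
  · intro x
    rw [hf, hf, cub_neg, AddChar.map_neg_eq_conj]
  · intro c hc x
    have : c = 1 := by
      have h3 : (3 : F) = 0 := by exact_mod_cast CharP.cast_eq_zero F 3
      have : (c - 1) ^ 3 = 0 := by
        have : (c - 1) ^ 3 = c ^ 3 - 1 - 3 * (c ^ 2 - c) := by ring
        rw [this, hc, h3]; ring
      exact sub_eq_zero.1 (pow_eq_zero_iff (by norm_num) |>.1 this)
    rw [this, one_mul]
  · intro a x
    rw [hadd]
    have h1 : f x * conj (f x) = 1 := by
      rw [Complex.mul_conj, Complex.normSq_eq_norm_sq, hnorm]; simp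
    calc f x * f a * ψ (x * x * a + x * a * a) * conj (f x)
        = f x * conj (f x) * (f a * ψ (x * x * a + x * a * a)) := by ring
      _ = f a * ψ (a * x ^ 2 + a ^ 2 * x) := by
        rw [h1, one_mul]; congr 2; ring

theorem exists_cubic_of_three_ne_zero [Finite F] (h3 : (3 : F) ≠ 0) :
    ∃ (ψ : AddChar F ℂ) (f : F → ℂ), ψ.IsPrimitive ∧ IsCubic ψ f := by
  obtain ⟨ψ, hψ⟩ : ∃ ψ : AddChar F ℂ, ψ 1 ≠ 1 := AddChar.exists_apply_ne_zero.2 one_ne_zero
  refine ⟨ψ, fun x => ψ (3⁻¹ * x ^ 3), AddChar.IsPrimitive.of_ne_one ?_, ?_, ?_, ?_, ?_⟩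
  · rintro rfl
    exact hψ rfl
  · intro x; exact AddChar.norm_apply _ _
  · intro x
    rw [← AddChar.map_neg_eq_conj]
    congr 1; ring
  · intro c hc x
    rw [mul_pow, hc, one_mul]
  · intro a x
    rw [← AddChar.map_neg_eq_conj, ← AddChar.map_add_eq_mul, ← AddChar.map_add_eq_mul]
    congr 1
    field_simp
    ring

/-- Cubic phases exist on every finite field (only odd characteristic is of interest). -/
theorem exists_cubic (F : Type*) [Field F] [Finite F] :
    ∃ (ψ : AddChar F ℂ) (f : F → ℂ), ψ.IsPrimitive ∧ IsCubic ψ f := by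
  by_cases h3 : (3 : F) = 0
  · have : CharP F 3 := by
      have h : ringChar F ∣ 3 := (ringChar.spec F 3).1 (by exact_mod_cast h3)
      have hp : Nat.Prime (ringChar F) := CharP.char_is_prime F (ringChar F)
      have : ringChar F = 3 := (Nat.prime_dvd_prime_iff_eq hp Nat.prime_three).1 h
      exact ringChar.of_eq this
    exact exists_cubic_three
  · exact exists_cubic_of_three_ne_zero h3

end Main

end Pool.Agent.Lib.MP_d0f9e0_co.WHNear
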