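import Pool.Agent.Lib.MP_d0f9e0_co.WHNear.FrameG
import Pool.Agent.Lib.MP_d0f9e0_co.WHNear.Mult

/-!
# Near equiangular Weyl-Heisenberg orbits on `ZMod d`, `d + 1` a prime power (helper74)
-/

set_option autoImplicit false

namespace Pool.Agent.Lib.MP_d0f9e0_co.WHNear

open Finset

/-- The usual Weyl-Heisenberg group in dimension `d`, `d + 1` a prime power. -/
theorem cyc {d : ℕ} [NeZero d] (hd : 2 ≤ d) (h : IsPrimePow (d + 1)) : ∃ φ : ZMod d → ℂ,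
    (∀ i : ZMod d × AddChar (ZMod d) ℂ, ∑ k, ‖i.2 k * φ (k + i.1)‖ ^ 2 = 1) ∧
    (∀ v : ZMod d → ℂ, ∑ i : ZMod d × AddChar (ZMod d) ℂ,
      ‖∑ k, i.2 k * φ (k + i.1) * star (v k)‖ ^ 2 = d * ∑ k, ‖v k‖ ^ 2) ∧
    (∀ i j : ZMod d × AddChar (ZMod d) ℂ, i ≠ j →
      |Real.sqrt (d + 1) * ‖∑ k, i.2 k * φ (k + i.1) * star (j.2 k * φ (k + j.1))‖ - 1| ≤
        4 * (d : ℝ) ^ (-(1 / 4) : ℝ) + 6 * (d : ℝ) ^ (-(1 / 2) : ℝ)) ∧
    (720 ≤ d → LinearIndependent ℂ (fun i : ZMod d × AddChar (ZMod d) ℂ =>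
      Matrix.vecMulVec (fun k => i.2 k * φ (k + i.1)) (star fun k => i.2 k * φ (k + i.1)))) := by
  classical
  obtain ⟨φ, h1, h2⟩ := near_zmod_of_primePow hd h
  have h3 : ∀ (a : ZMod d) (χ : AddChar (ZMod d) ℂ), ¬ (a = 0 ∧ χ = 1) →
      |Real.sqrt ((d : ℝ) + 1) * ‖G.amb φ a χ‖ - 1| ≤
        4 * (d : ℝ) ^ (-(1 / 4) : ℝ) + 6 * (d : ℝ) ^ (-(1 / 2) : ℝ) := by
    intro a χ hne
    have h4 := h2 a χ (by
      by_contra hcon
      push Not at hcon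
      exact hne hcon)
    have h5 : G.amb φ a χ = ∑ k, φ (k + a) * (starRingEnd ℂ) (φ k) * χ k := by
      unfold G.amb
      refine sum_congr rfl fun k _ => ?_
      rw [Complex.star_def]
      ring
    rw [h5]
    exact h4
  obtain ⟨g1, g2, g3, g4⟩ := G.of_amb φ h1 _ _ h3
  refine ⟨φ, g1, fun v => ?_, g3, fun hd7 => g4 ?_⟩
  · have := g2 v
    rwa [ZMod.card] at this
  · have hd0 : (0 : ℝ) < d := by
      have : 0 < d := by omega
      exact_mod_cast this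
    have hd7' : (720 : ℝ) ≤ d := by exact_mod_cast hd7
    set t : ℝ := (d : ℝ) ^ (-(1 / 4) : ℝ) with ht
    have ht0 : 0 < t := Real.rpow_pos_of_pos hd0 _
    have ht2 : t ^ 2 = (d : ℝ) ^ (-(1 / 2) : ℝ) := by
      rw [ht, ← Real.rpow_natCast, ← Real.rpow_mul hd0.le]; norm_num
    have ht4 : t ^ 4 = (d : ℝ)⁻¹ := by
      rw [ht, ← Real.rpow_natCast, ← Real.rpow_mul hd0.le, ← Real.rpow_neg_one]; norm_num
    rw [← ht2]
    have h5 : t < 387 / 2000 := by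
      refine lt_of_pow_lt_pow_left₀ 4 (by norm_num) ?_
      rw [ht4, inv_lt_comm₀ hd0 (by norm_num)]
      norm_num
      linarith
    nlinarith

end Pool.Agent.Lib.MP_d0f9e0_co.WHNear
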