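import Pool.Agent.Lib.MP_d0f9e0_co.WHNear.Gauss

/-!
# The ambiguity function of a cubic phase plus one spike
-/

set_option autoImplicit false

namespace Pool.Agent.Lib.MP_d0f9e0_co.WHNear

open Finset

variable {F : Type} [Field F] [Fintype F] [DecidableEq F]

/-- Cubic phase plus a spike at the origin. -/
noncomputable def raw (s t : ℝ) (β : F → ℂ) (k : F) : ℂ := s * β k + if k = 0 then (t : ℂ) else 0

lemma one_char (k : F) : (1 : AddChar F ℂ) k = 1 := rfl

/-- The ambiguity function. -/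
noncomputable def amb (φ : F → ℂ) (a : F) (χ : AddChar F ℂ) : ℂ :=
  ∑ k, χ k * φ (k + a) * star (φ k)

lemma amb_raw (s t : ℝ) (β : F → ℂ) (a : F) (χ : AddChar F ℂ) :
    amb (raw s t β) a χ = (s : ℂ) ^ 2 * amb β a χ + s * t * (β a + χ (-a) * star (β (-a))) +
      (if a = 0 then (t : ℂ) ^ 2 else 0) := by
  classical
  have e1 : ∀ k : F, χ k * raw s t β (k + a) * star (raw s t β k) =
      (s : ℂ) ^ 2 * (χ k * β (k + a) * star (β k)) +
      (if k = 0 then s * t * (χ k * β (k + a)) else 0) +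
      (if k = -a then s * t * (χ k * star (β k)) else 0) +
      (if k = 0 then (if a = 0 then (t : ℂ) ^ 2 * χ k else 0) else 0) := by
    intro k
    unfold raw
    rw [star_add, star_mul']
    have hs : star ((s : ℝ) : ℂ) = s := Complex.conj_ofReal s
    have ht : star (if k = 0 then (t : ℂ) else 0) = if k = 0 then (t : ℂ) else 0 := by
      split_ifs
      · exact Complex.conj_ofReal t
      · exact star_zero _
    rw [hs, ht]
    by_cases hk : k = 0
    · subst hk
      by_cases ha : a = 0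
      · subst ha; simp; ring
      · have h1 : ¬ ((0 : F) = -a) := fun h => ha (by rw [← neg_neg a, ← h, neg_zero])
        simp [ha, h1]; ring
    · by_cases hka : k = -a
      · subst hka
        have ha : a ≠ 0 := fun h => hk (by rw [h, neg_zero])
        simp [ha]; ring
      · have h2 : k + a ≠ 0 := fun h => hka (eq_neg_of_add_eq_zero_left h)
        simp [hk, hka, h2]; ring
  unfold amb
  simp_rw [e1]
  rw [Finset.sum_add_distrib, Finset.sum_add_distrib, Finset.sum_add_distrib, ← Finset.mul_sum]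
  simp only [Finset.sum_ite_eq', Finset.mem_univ, if_true, AddChar.map_zero_eq_one, zero_add,
    one_mul, mul_one]
  ring

variable {ψ : AddChar F ℂ} {β : F → ℂ}

/-- The ambiguity function of the cubic phase is flat off the line `a = 0`. -/
lemma amb_cubic (h2 : (2 : F) ≠ 0) (hψ : ψ ≠ 1) (hβ : ∀ k, ‖β k‖ = 1)
    (hadd : ∀ a k, β (k + a) = β k * β a * ψ (a * k ^ 2 + a ^ 2 * k)) {a : F} (ha : a ≠ 0)
    (χ : AddChar F ℂ) : ‖amb β a χ‖ = Real.sqrt (Fintype.card F) := by
  have hk : ∀ k, β k * star (β k) = 1 := fun k => by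
    rw [Complex.star_def, Complex.mul_conj, Complex.normSq_eq_norm_sq, hβ]; simp
  have e : amb β a χ = β a * ∑ k, (χ * ψ.mulShift (a ^ 2)) k * ψ (a * k ^ 2) := by
    unfold amb
    rw [Finset.mul_sum]
    refine Finset.sum_congr rfl fun k _ => ?_
    rw [hadd, AddChar.map_add_eq_mul, AddChar.mul_apply, AddChar.mulShift_apply]
    calc χ k * (β k * β a * (ψ (a * k ^ 2) * ψ (a ^ 2 * k))) * star (β k)
        = (β k * star (β k)) * (β a * (χ k * ψ (a ^ 2 * k) * ψ (a * k ^ 2))) := by ring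
      _ = _ := by rw [hk, one_mul]
  rw [e, norm_mul, hβ, one_mul, gauss_norm h2 hψ _ ha]

lemma amb_zero_line (hβ : ∀ k, ‖β k‖ = 1) {χ : AddChar F ℂ} (hχ : χ ≠ 1) : amb β 0 χ = 0 := by
  have hk : ∀ k, β k * star (β k) = 1 := fun k => by
    rw [Complex.star_def, Complex.mul_conj, Complex.normSq_eq_norm_sq, hβ]; simp
  unfold amb
  simp_rw [add_zero, mul_assoc, hk, mul_one]
  exact AddChar.sum_eq_zero_of_ne_one hχ

/-- Estimate before normalization. -/
lemma amb_raw_bound (h2 : (2 : F) ≠ 0) (hψ : ψ ≠ 1) (hβ : ∀ k, ‖β k‖ = 1)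
    (hadd : ∀ a k, β (k + a) = β k * β a * ψ (a * k ^ 2 + a ^ 2 * k)) {s t : ℝ} (hs : 0 ≤ s)
    (ht : 0 ≤ t) (hst : s ^ 2 * Real.sqrt (Fintype.card F) = t ^ 2) (a : F) (χ : AddChar F ℂ)
    (hne : ¬ (a = 0 ∧ χ = 1)) :
    |‖amb (raw s t β) a χ‖ - t ^ 2| ≤ 2 * s * t := by
  have hcross : ‖(s : ℂ) * t * (β a + χ (-a) * star (β (-a)))‖ ≤ 2 * s * t := by
    rw [norm_mul, norm_mul, Complex.norm_real, Complex.norm_real, Real.norm_of_nonneg hs,
      Real.norm_of_nonneg ht]
    have h1 : ‖β a + χ (-a) * star (β (-a))‖ ≤ 2 := by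
      refine (norm_add_le _ _).trans ?_
      rw [norm_mul, norm_star, hβ, hβ, norm_char]; norm_num
    nlinarith [mul_nonneg hs ht]
  have hmain : ‖amb (raw s t β) a χ - (s : ℂ) * t * (β a + χ (-a) * star (β (-a)))‖ = t ^ 2 := by
    rw [amb_raw]
    by_cases ha : a = 0
    · subst ha
      have hχ : χ ≠ 1 := fun h => hne ⟨rfl, h⟩
      rw [amb_zero_line hβ hχ, if_pos rfl, mul_zero, zero_add, add_sub_cancel_left, norm_pow,
        Complex.norm_real, Real.norm_of_nonneg ht]
    · rw [if_neg ha, add_zero, add_sub_cancel_right, norm_mul, norm_pow, Complex.norm_real,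
        Real.norm_of_nonneg hs, amb_cubic h2 hψ hβ hadd ha, hst]
  calc |‖amb (raw s t β) a χ‖ - t ^ 2|
      = |‖amb (raw s t β) a χ‖ - ‖amb (raw s t β) a χ - (s : ℂ) * t *
          (β a + χ (-a) * star (β (-a)))‖| := by rw [hmain]
    _ ≤ ‖amb (raw s t β) a χ - (amb (raw s t β) a χ - (s : ℂ) * t *
          (β a + χ (-a) * star (β (-a))))‖ := abs_norm_sub_norm_le _ _
    _ = ‖(s : ℂ) * t * (β a + χ (-a) * star (β (-a)))‖ := by rw [sub_sub_cancel]
    _ ≤ 2 * s * t := hcross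

/-- The norm of the unnormalized vector. -/
lemma sum_raw (hβ : ∀ k, ‖β k‖ = 1) (h0 : β 0 = 1) (s t : ℝ) :
    ∑ k, ‖raw s t β k‖ ^ 2 = s ^ 2 * Fintype.card F + 2 * s * t + t ^ 2 := by
  have h := amb_raw s t β 0 1
  have h1 : amb (raw s t β) 0 1 = ((∑ k, ‖raw s t β k‖ ^ 2 : ℝ) : ℂ) := by
    unfold amb
    rw [Complex.ofReal_sum]
    refine Finset.sum_congr rfl fun k _ => ?_
    rw [add_zero, one_char, one_mul, Complex.star_def, Complex.mul_conj,
      Complex.normSq_eq_norm_sq]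
  have h3 : amb β 0 1 = (Fintype.card F : ℂ) := by
    unfold amb
    have : ∀ k : F, (1 : AddChar F ℂ) k * β (k + 0) * star (β k) = 1 := fun k => by
      rw [add_zero, one_char, one_mul, Complex.star_def, Complex.mul_conj,
        Complex.normSq_eq_norm_sq, hβ]; simp
    rw [Finset.sum_congr rfl fun k _ => this k]
    simp
  rw [h1, h3, if_pos rfl, h0, neg_zero, h0, AddChar.map_zero_eq_one, star_one, one_mul] at h
  have h4 : ((∑ k, ‖raw s t β k‖ ^ 2 : ℝ) : ℂ) =
      ((s ^ 2 * Fintype.card F + 2 * s * t + t ^ 2 : ℝ) : ℂ) := by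
    rw [h]; push_cast; ring
  exact_mod_cast h4

end Pool.Agent.Lib.MP_d0f9e0_co.WHNear
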