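import Pool.Agent.Lib.MP_d0f9e0_co.WHNear.FrameG
import Pool.Agent.Lib.MP_d0f9e0_co.WHNear.Overlap
import Pool.Agent.Lib.MP_d0f9e0_co.WHNear.CubicExt

/-!
# Nearly equiangular Weyl-Heisenberg orbits
-/

set_option autoImplicit false

namespace Pool.Agent.Lib.MP_d0f9e0_co.WHNear

open Finset

variable {F : Type} [Field F] [Fintype F]

/-- The elementary inequality behind the final estimate. -/
lemma estimate {t A Q : ℝ} (ht : 0 < t) (ht1 : t ≤ 1) (hA0 : 0 ≤ A) (hQ : Q = 1 / t ^ 4)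
    (hA : |A - t ^ 2| ≤ 2 * t ^ 2 * t) :
    |Real.sqrt (Q + 1) * (A / (1 + t ^ 2 + 2 * t ^ 3)) - 1| ≤ 2 * t + t ^ 2 := by
  obtain ⟨hA1, hA2⟩ := abs_le.1 hA
  have hN : 0 < 1 + t ^ 2 + 2 * t ^ 3 := by positivity
  have hsq : Real.sqrt (Q + 1) = Real.sqrt (1 + t ^ 4) / t ^ 2 := by
    rw [hQ, show 1 / t ^ 4 + 1 = (1 + t ^ 4) / (t ^ 2) ^ 2 by field_simp,
      Real.sqrt_div (by positivity), Real.sqrt_sq (by positivity)]
  have hr1 : 1 ≤ Real.sqrt (1 + t ^ 4) := by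
    rw [Real.one_le_sqrt]; nlinarith [pow_pos ht 4]
  have hr2 : Real.sqrt (1 + t ^ 4) ≤ 1 + t ^ 4 := by
    rw [Real.sqrt_le_left (by positivity)]
    nlinarith [pow_pos ht 4]
  set r := Real.sqrt (1 + t ^ 4)
  set B := A / t ^ 2 with hB
  have hB0 : 0 ≤ B := by positivity
  have hAB : A = B * t ^ 2 := by rw [hB]; field_simp
  have ht2 : 0 < t ^ 2 := by positivity
  have hB1 : 1 - 2 * t ≤ B := by
    rw [hAB] at hA1
    by_contra h
    push Not at h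
    nlinarith
  have hB2 : B ≤ 1 + 2 * t := by
    rw [hAB] at hA2
    by_contra h
    push Not at h
    nlinarith
  have hval : Real.sqrt (Q + 1) * (A / (1 + t ^ 2 + 2 * t ^ 3)) = r * B / (1 + t ^ 2 + 2 * t ^ 3) := by
    rw [hsq, hAB]; field_simp
  rw [hval, abs_le]
  constructor
  · by_cases hneg : 1 - 2 * t - t ^ 2 ≤ 0
    · have : 0 ≤ r * B / (1 + t ^ 2 + 2 * t ^ 3) := by positivity
      linarith
    · push Not at hneg
      have h1 : 1 - 2 * t - t ^ 2 ≤ r * B / (1 + t ^ 2 + 2 * t ^ 3) := by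
        rw [le_div_iff₀ hN]
        have h2 : (1 - 2 * t - t ^ 2) * (1 + t ^ 2 + 2 * t ^ 3) ≤ 1 - 2 * t := by
          have : (1 - 2 * t - t ^ 2) * (1 + t ^ 2 + 2 * t ^ 3) = 1 - 2 * t - 5 * t ^ 4 - 2 * t ^ 5 := by
            ring
          rw [this]
          have := pow_pos ht 4
          have := pow_pos ht 5
          linarith
        have h3 : B ≤ r * B := by nlinarith
        linarith
      linarith
  · have h1 : r * B / (1 + t ^ 2 + 2 * t ^ 3) ≤ 1 + 2 * t := by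
      rw [div_le_iff₀ hN]
      have h2 : r ≤ 1 + t ^ 2 + 2 * t ^ 3 := by
        have : t ^ 4 ≤ t ^ 2 := pow_le_pow_of_le_one ht.le ht1 (by norm_num)
        have := pow_pos ht 3
        linarith
      calc r * B ≤ (1 + t ^ 2 + 2 * t ^ 3) * (1 + 2 * t) := by
            apply mul_le_mul h2 hB2 hB0 hN.le
        _ = _ := by ring
    nlinarith

theorem main (h2 : (2 : F) ≠ 0) : ∃ φ : F → ℂ, (∑ k, ‖φ k‖ ^ 2 = 1) ∧
    (∀ c k, c ^ 3 = 1 → φ (c * k) = φ k) ∧ (∀ k, φ (-k) = star (φ k)) ∧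
    ∀ a χ, ¬ (a = 0 ∧ χ = 1) → |Real.sqrt (Fintype.card F + 1) * ‖amb φ a χ‖ - 1| ≤
      2 * (Fintype.card F : ℝ) ^ (-(1 / 4) : ℝ) + (Fintype.card F : ℝ) ^ (-(1 / 2) : ℝ) := by
  classical
  obtain ⟨ψ, β, hψ, hβ, h0, hadd, hcube, hconj⟩ := exists_cubic (F := F)
  set q : ℝ := ((Fintype.card F : ℕ) : ℝ) with hq
  have hq1 : 1 ≤ q := by
    rw [hq]; exact_mod_cast Fintype.card_pos
  have hq0 : 0 < q := by linarith
  set t : ℝ := q ^ (-(1 / 4) : ℝ) with ht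
  have ht0 : 0 < t := Real.rpow_pos_of_pos hq0 _
  have ht1 : t ≤ 1 := Real.rpow_le_one_of_one_le_of_nonpos hq1 (by norm_num)
  have ht2 : t ^ 2 = q ^ (-(1 / 2) : ℝ) := by
    rw [ht, ← Real.rpow_natCast, ← Real.rpow_mul hq0.le]; norm_num
  have ht4 : t ^ 4 = q⁻¹ := by
    rw [ht, ← Real.rpow_natCast, ← Real.rpow_mul hq0.le, ← Real.rpow_neg_one]; norm_num
  have hQ : q = 1 / t ^ 4 := by rw [ht4]; field_simp
  have hsqrt : Real.sqrt q = 1 / t ^ 2 := by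
    rw [hQ, show 1 / t ^ 4 = (1 / t ^ 2) ^ 2 by field_simp, Real.sqrt_sq (by positivity)]
  have hN : ∑ k, ‖raw (t ^ 2) t β k‖ ^ 2 = 1 + t ^ 2 + 2 * t ^ 3 := by
    rw [sum_raw hβ h0, ← hq]
    have : (t ^ 2) ^ 2 * q = 1 := by
      rw [hQ]; field_simp
    rw [this]; ring
  have hNpos : 0 < 1 + t ^ 2 + 2 * t ^ 3 := by positivity
  set N : ℝ := 1 + t ^ 2 + 2 * t ^ 3 with hNdef
  set c : ℝ := (Real.sqrt N)⁻¹ with hc
  have hc0 : 0 ≤ c := by positivity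
  have hc2 : c ^ 2 = N⁻¹ := by
    rw [hc, inv_pow, Real.sq_sqrt hNpos.le]
  refine ⟨fun k => (c : ℂ) * raw (t ^ 2) t β k, ?_, ?_, ?_, ?_⟩
  · simp_rw [norm_mul, mul_pow, Complex.norm_real, Real.norm_of_nonneg hc0]
    rw [← Finset.mul_sum, hN, hc2, inv_mul_cancel₀ hNpos.ne']
  · intro a k ha
    have hane : a ≠ 0 := fun h => by rw [h] at ha; simp at ha
    have : (a * k = 0) ↔ (k = 0) := by simp [hane]
    show (c : ℂ) * raw (t ^ 2) t β (a * k) = c * raw (t ^ 2) t β k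
    unfold raw
    rw [hcube a k ha]
    simp only [this]
  · intro k
    show (c : ℂ) * raw (t ^ 2) t β (-k) = star ((c : ℂ) * raw (t ^ 2) t β k)
    unfold raw
    rw [hconj, star_mul', star_add, star_mul']
    have e : ∀ x : ℝ, star ((x : ℝ) : ℂ) = x := fun x => Complex.conj_ofReal x
    rw [e, e]
    have : (-k = 0) ↔ (k = 0) := neg_eq_zero
    simp only [this]
    split_ifs
    · rw [e]
    · rw [star_zero]
  · intro a χ hne
    have hamb : amb (fun k => (c : ℂ) * raw (t ^ 2) t β k) a χ =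
        ((c ^ 2 : ℝ) : ℂ) * amb (raw (t ^ 2) t β) a χ := by
      unfold amb
      rw [Finset.mul_sum]
      refine Finset.sum_congr rfl fun k _ => ?_
      have e : star ((c : ℝ) : ℂ) = c := Complex.conj_ofReal c
      rw [star_mul', e]
      push_cast; ring
    have hb := amb_raw_bound h2 hψ hβ hadd (s := t ^ 2) (t := t) (by positivity) ht0.le
      (by rw [← hq, hsqrt]; field_simp) a χ hne
    have hest := estimate ht0 ht1 (norm_nonneg _) hQ hb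
    rw [hamb, norm_mul, Complex.norm_real, Real.norm_of_nonneg (by positivity), hc2, ← ht2]
    convert hest using 3
    rw [div_eq_inv_mul]

/-- **Nearly equiangular Weyl-Heisenberg orbits in every odd prime power dimension.** -/
theorem final (h2 : (2 : F) ≠ 0) : ∃ φ : F → ℂ,
    (∀ c k, c ^ 3 = 1 → φ (c * k) = φ k) ∧ (∀ k, φ (-k) = star (φ k)) ∧
    (∀ i : F × AddChar F ℂ, ∑ k, ‖i.2 k * φ (k + i.1)‖ ^ 2 = 1) ∧
    (∀ v : F → ℂ, ∑ i : F × AddChar F ℂ, ‖∑ k, i.2 k * φ (k + i.1) * star (v k)‖ ^ 2 =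
      Fintype.card F * ∑ k, ‖v k‖ ^ 2) ∧
    (∀ i j : F × AddChar F ℂ, i ≠ j →
      |Real.sqrt (Fintype.card F + 1) *
        ‖∑ k, i.2 k * φ (k + i.1) * star (j.2 k * φ (k + j.1))‖ - 1| ≤
      2 * (Fintype.card F : ℝ) ^ (-(1 / 4) : ℝ) + (Fintype.card F : ℝ) ^ (-(1 / 2) : ℝ)) ∧
    (36 < Fintype.card F → LinearIndependent ℂ (fun i : F × AddChar F ℂ =>
      Matrix.vecMulVec (fun k => i.2 k * φ (k + i.1)) (star fun k => i.2 k * φ (k + i.1)))) := by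
  classical
  obtain ⟨φ, h1, hcube, hconj, hamb⟩ := main h2
  obtain ⟨k1, k2, k3, k4⟩ := G.of_amb φ h1 _ _ hamb
  refine ⟨φ, hcube, hconj, k1, k2, k3, fun hq => k4 ?_⟩
  have hq' : (36 : ℝ) < Fintype.card F := by exact_mod_cast hq
  have hq0 : (0 : ℝ) < Fintype.card F := by linarith
  set q : ℝ := ((Fintype.card F : ℕ) : ℝ)
  set t : ℝ := q ^ (-(1 / 4) : ℝ) with ht
  have ht0 : 0 < t := Real.rpow_pos_of_pos hq0 _
  have ht2 : t ^ 2 = q ^ (-(1 / 2) : ℝ) := by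
    rw [ht, ← Real.rpow_natCast, ← Real.rpow_mul hq0.le]; norm_num
  have ht4 : t ^ 4 = q⁻¹ := by
    rw [ht, ← Real.rpow_natCast, ← Real.rpow_mul hq0.le, ← Real.rpow_neg_one]; norm_num
  rw [← ht2]
  have h5 : (t ^ 2) ^ 2 < (1 / 6) ^ 2 := by
    rw [← pow_mul, ht4, inv_lt_comm₀ hq0 (by norm_num)]
    norm_num
    linarith
  have h6 : t ^ 2 < 1 / 6 := lt_of_pow_lt_pow_left₀ 2 (by norm_num) h5
  nlinarith

end Pool.Agent.Lib.MP_d0f9e0_co.WHNear
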