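import Mathlib

/-!
# Weyl-Heisenberg orbits on a finite abelian group: tightness, overlaps and independence
-/

set_option autoImplicit false

set_option linter.unusedSectionVars false

namespace Pool.Agent.Lib.MP_d0f9e0_co.WHNear.Grp

open Finset

variable {F : Type} [AddCommGroup F] [Fintype F] [DecidableEq F]

/-- The value of a character has modulus one. -/
lemma norm_char (χ : AddChar F ℂ) (x : F) : ‖χ x‖ = 1 := χ.norm_apply x

lemma star_char (χ : AddChar F ℂ) (x : F) : star (χ x) = χ (-x) := by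
  rw [AddChar.map_neg_eq_conj]; rfl

/-- The ambiguity function. -/
noncomputable def amb (φ : F → ℂ) (a : F) (χ : AddChar F ℂ) : ℂ :=
  ∑ k, χ k * φ (k + a) * star (φ k)


/-- The Weyl-Heisenberg displacements of `φ`. -/
def disp (φ : F → ℂ) (i : F × AddChar F ℂ) (k : F) : ℂ := i.2 k * φ (k + i.1)

lemma sum_char (k : F) : ∑ χ : AddChar F ℂ, χ k = if k = 0 then (Fintype.card F : ℂ) else 0 := by
  convert AddChar.sum_apply_eq_ite (α := F) k

lemma norm_disp (φ : F → ℂ) (i : F × AddChar F ℂ) :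
    ∑ k, ‖disp φ i k‖ ^ 2 = ∑ k, ‖φ k‖ ^ 2 := by
  unfold disp
  simp_rw [norm_mul, norm_char, one_mul]
  exact Equiv.sum_comp (Equiv.addRight i.1) fun k => ‖φ k‖ ^ 2

/-- The overlap of two displacements is a value of the ambiguity function. -/
lemma overlap (φ : F → ℂ) (i j : F × AddChar F ℂ) :
    ‖∑ k, disp φ i k * star (disp φ j k)‖ = ‖amb φ (i.1 - j.1) (i.2 * j.2⁻¹)‖ := by
  unfold disp amb
  have h : ∀ k : F, i.2 k * φ (k + i.1) * star (j.2 k * φ (k + j.1)) =
      star ((i.2 * j.2⁻¹) j.1) * ((i.2 * j.2⁻¹) (k + j.1) * φ (k + j.1 + (i.1 - j.1)) *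
        star (φ (k + j.1))) := by
    intro k
    have e1 : k + j.1 + (i.1 - j.1) = k + i.1 := by abel
    rw [e1, star_mul', star_char, AddChar.map_add_eq_mul, star_char, AddChar.mul_apply,
      AddChar.mul_apply, AddChar.mul_apply, AddChar.inv_apply, AddChar.inv_apply,
      AddChar.inv_apply, neg_neg]
    have e2 : i.2 (-j.1) * i.2 j.1 = 1 := by
      rw [← AddChar.map_add_eq_mul, neg_add_cancel, AddChar.map_zero_eq_one]
    have e3 : j.2 j.1 * j.2 (-j.1) = 1 := by
      rw [← AddChar.map_add_eq_mul, add_neg_cancel, AddChar.map_zero_eq_one]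
    calc i.2 k * φ (k + i.1) * (j.2 (-k) * star (φ (k + j.1)))
        = (i.2 (-j.1) * i.2 j.1) * (j.2 j.1 * j.2 (-j.1)) *
          (i.2 k * φ (k + i.1) * (j.2 (-k) * star (φ (k + j.1)))) := by rw [e2, e3]; ring
      _ = _ := by ring
  simp_rw [h]
  rw [← Finset.mul_sum, norm_mul, norm_star, norm_char, one_mul]
  congr 1
  exact Equiv.sum_comp (Equiv.addRight j.1) fun k =>
    (i.2 * j.2⁻¹) k * φ (k + (i.1 - j.1)) * star (φ k)

lemma parseval (g : F → ℂ) :
    ∑ χ : AddChar F ℂ, ‖∑ k, χ k * g k‖ ^ 2 = Fintype.card F * ∑ k, ‖g k‖ ^ 2 := by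
  have h : ((∑ χ : AddChar F ℂ, ‖∑ k, χ k * g k‖ ^ 2 : ℝ) : ℂ) =
      ((Fintype.card F * ∑ k, ‖g k‖ ^ 2 : ℝ) : ℂ) := by
    rw [Complex.ofReal_sum]
    have h1 : ∀ χ : AddChar F ℂ, ((‖∑ k, χ k * g k‖ ^ 2 : ℝ) : ℂ) =
        ∑ k, ∑ l, χ (k - l) * (g k * star (g l)) := by
      intro χ
      rw [← Complex.normSq_eq_norm_sq, ← Complex.mul_conj, ← Complex.star_def, star_sum,
        Finset.sum_mul_sum]
      refine Finset.sum_congr rfl fun k _ => Finset.sum_congr rfl fun l _ => ?_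
      rw [star_mul', star_char, sub_eq_add_neg, AddChar.map_add_eq_mul]; ring
    simp_rw [h1]
    rw [Finset.sum_comm]
    have h2 : ∀ k : F, ∑ χ : AddChar F ℂ, ∑ l, χ (k - l) * (g k * star (g l)) =
        (Fintype.card F : ℂ) * (‖g k‖ ^ 2 : ℝ) := by
      intro k
      rw [Finset.sum_comm]
      simp_rw [← Finset.sum_mul, sum_char]
      rw [Finset.sum_eq_single k]
      · rw [sub_self, if_pos rfl, Complex.star_def, Complex.mul_conj, Complex.normSq_eq_norm_sq]
      · intro l _ hl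
        rw [if_neg (sub_ne_zero.2 (Ne.symm hl)), zero_mul]
      · intro h; exact absurd (Finset.mem_univ _) h
    simp_rw [h2]
    rw [← Finset.mul_sum, Complex.ofReal_mul, Complex.ofReal_sum]
    norm_num
  exact_mod_cast h

/-- Every Weyl-Heisenberg orbit is a tight frame. -/
lemma tight (φ v : F → ℂ) :
    ∑ i : F × AddChar F ℂ, ‖∑ k, disp φ i k * star (v k)‖ ^ 2 =
      Fintype.card F * (∑ k, ‖φ k‖ ^ 2) * ∑ k, ‖v k‖ ^ 2 := by
  rw [Fintype.sum_prod_type]
  have h1 : ∀ a : F, ∑ χ : AddChar F ℂ, ‖∑ k, disp φ (a, χ) k * star (v k)‖ ^ 2 =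
      Fintype.card F * ∑ k, ‖φ (k + a)‖ ^ 2 * ‖v k‖ ^ 2 := by
    intro a
    unfold disp
    simp_rw [mul_assoc]
    rw [parseval]
    simp_rw [norm_mul, norm_star, mul_pow]
  simp_rw [h1]
  rw [← Finset.mul_sum, Finset.sum_comm, mul_assoc]
  congr 1
  rw [Finset.mul_sum]
  refine Finset.sum_congr rfl fun k _ => ?_
  rw [← Finset.sum_mul]
  congr 1
  exact Equiv.sum_comp (Equiv.addLeft k) fun a => ‖φ a‖ ^ 2

/-- If no overlap vanishes, the rank one projections are linearly independent. -/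
lemma indep (φ : F → ℂ) (h : ∀ a χ, amb φ a χ ≠ 0) :
    LinearIndependent ℂ (fun i : F × AddChar F ℂ =>
      Matrix.vecMulVec (disp φ i) (star (disp φ i))) := by
  rw [Fintype.linearIndependent_iff]
  intro c hc
  have h1 : ∀ l h : F, ∑ i : F × AddChar F ℂ,
      c i * (i.2 h * (φ (l + h + i.1) * star (φ (l + i.1)))) = 0 := by
    intro l h
    have h2 := congrFun (congrFun hc (l + h)) l
    rw [Matrix.sum_apply, Matrix.zero_apply] at h2
    rw [← h2]
    refine Finset.sum_congr rfl fun i _ => ?_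
    rw [Matrix.smul_apply, Matrix.vecMulVec_apply, Pi.star_apply, smul_eq_mul]
    unfold disp
    rw [star_mul', star_char, AddChar.map_add_eq_mul]
    have e2 : i.2 l * i.2 (-l) = 1 := by
      rw [← AddChar.map_add_eq_mul, add_neg_cancel, AddChar.map_zero_eq_one]
    calc c i * (i.2 h * (φ (l + h + i.1) * star (φ (l + i.1))))
        = (i.2 l * i.2 (-l)) * (c i * (i.2 h * (φ (l + h + i.1) * star (φ (l + i.1))))) := by
          rw [e2, one_mul]
      _ = _ := by ring
  have h3 : ∀ (h : F) (η : AddChar F ℂ),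
      ∑ i : F × AddChar F ℂ, c i * (i.2 h * η (-i.1)) = 0 := by
    intro b η
    have h4 : ∑ l, η l * ∑ i : F × AddChar F ℂ,
        c i * (i.2 b * (φ (l + b + i.1) * star (φ (l + i.1)))) = 0 := by
      simp_rw [h1, mul_zero, Finset.sum_const_zero]
    have h5 : ∑ l, η l * ∑ i : F × AddChar F ℂ,
        c i * (i.2 b * (φ (l + b + i.1) * star (φ (l + i.1)))) =
        amb φ b η * ∑ i : F × AddChar F ℂ, c i * (i.2 b * η (-i.1)) := by
      simp_rw [Finset.mul_sum]
      rw [Finset.sum_comm]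
      refine Finset.sum_congr rfl fun i _ => ?_
      have h6 : ∑ l, η l * (c i * (i.2 b * (φ (l + b + i.1) * star (φ (l + i.1))))) =
          (c i * (i.2 b * η (-i.1))) * ∑ l, η (l + i.1) * φ (l + i.1 + b) * star (φ (l + i.1)) := by
        rw [Finset.mul_sum]
        refine Finset.sum_congr rfl fun l _ => ?_
        have e1 : l + i.1 + b = l + b + i.1 := by abel
        have e2 : η (-i.1) * η i.1 = 1 := by
          rw [← AddChar.map_add_eq_mul, neg_add_cancel, AddChar.map_zero_eq_one]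
        rw [e1, AddChar.map_add_eq_mul]
        calc η l * (c i * (i.2 b * (φ (l + b + i.1) * star (φ (l + i.1)))))
            = (η (-i.1) * η i.1) * (η l * (c i * (i.2 b *
              (φ (l + b + i.1) * star (φ (l + i.1)))))) := by rw [e2, one_mul]
          _ = _ := by ring
      rw [h6]
      have h7 : ∑ l, η (l + i.1) * φ (l + i.1 + b) * star (φ (l + i.1)) = amb φ b η :=
        Equiv.sum_comp (Equiv.addRight i.1) fun l => η l * φ (l + b) * star (φ l)
      rw [h7, mul_comm]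
    rw [h5] at h4
    exact (mul_eq_zero.1 h4).resolve_left (h b η)
  rintro ⟨a₀, χ₀⟩
  have h8 : ∑ b : F, ∑ η : AddChar F ℂ, χ₀ (-b) * η a₀ *
      ∑ i : F × AddChar F ℂ, c i * (i.2 b * η (-i.1)) = 0 := by
    simp_rw [h3, mul_zero, Finset.sum_const_zero]
  have h9 : ∑ b : F, ∑ η : AddChar F ℂ, χ₀ (-b) * η a₀ *
      ∑ i : F × AddChar F ℂ, c i * (i.2 b * η (-i.1)) =
      ∑ i : F × AddChar F ℂ, c i * ((∑ b, χ₀ (-b) * i.2 b) * ∑ η : AddChar F ℂ, η (a₀ - i.1)) := by
    have : ∀ i : F × AddChar F ℂ, c i * ((∑ b, χ₀ (-b) * i.2 b) *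
        ∑ η : AddChar F ℂ, η (a₀ - i.1)) =
        ∑ b : F, ∑ η : AddChar F ℂ, χ₀ (-b) * η a₀ * (c i * (i.2 b * η (-i.1))) := by
      intro i
      rw [Finset.sum_mul_sum, Finset.mul_sum]
      refine Finset.sum_congr rfl fun b _ => ?_
      rw [Finset.mul_sum]
      refine Finset.sum_congr rfl fun η _ => ?_
      rw [sub_eq_add_neg, AddChar.map_add_eq_mul]; ring
    symm
    rw [Finset.sum_congr rfl fun i _ => this i, Finset.sum_comm]
    refine Finset.sum_congr rfl fun b _ => ?_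
    rw [Finset.sum_comm]
    refine Finset.sum_congr rfl fun η _ => ?_
    rw [Finset.mul_sum]
  have h10 : ∀ i : F × AddChar F ℂ, (∑ b, χ₀ (-b) * i.2 b) * ∑ η : AddChar F ℂ, η (a₀ - i.1) =
      if i = (a₀, χ₀) then (Fintype.card F : ℂ) * Fintype.card F else 0 := by
    rintro ⟨a, χ⟩
    have hs : ∑ b, χ₀ (-b) * χ b = if χ = χ₀ then (Fintype.card F : ℂ) else 0 := by
      have hb : ∀ b : F, χ₀ (-b) * χ b = (χ₀⁻¹ * χ) b := fun b => by
        rw [AddChar.mul_apply, AddChar.inv_apply]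
      simp_rw [hb]
      by_cases hχ : χ = χ₀
      · rw [if_pos hχ, hχ, inv_mul_cancel]
        exact AddChar.sum_eq_card_of_eq_one rfl
      · rw [if_neg hχ]
        refine AddChar.sum_eq_zero_of_ne_one fun h => hχ ?_
        exact (inv_mul_eq_one.1 h).symm
    rw [hs, sum_char]
    by_cases hχ : χ = χ₀ <;> by_cases ha : a = a₀
    · subst hχ; subst ha; simp
    · have : a₀ - a ≠ 0 := sub_ne_zero.2 (Ne.symm ha)
      simp [ha, this]
    · simp [hχ]
    · simp [hχ]
  rw [h9] at h8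
  simp_rw [h10] at h8
  simp only [mul_ite, mul_zero, Finset.sum_ite_eq', Finset.mem_univ, if_true] at h8
  have hq : (Fintype.card F : ℂ) ≠ 0 := Nat.cast_ne_zero.2 Fintype.card_ne_zero
  exact (mul_eq_zero.1 h8).resolve_right (mul_ne_zero hq hq)

end Pool.Agent.Lib.MP_d0f9e0_co.WHNear.Grp
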