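import Mathlib

/-!
# Quadratic Gauss sums twisted by an additive character
-/

set_option autoImplicit false

namespace Pool.Agent.Lib.MP_d0f9e0_co.WHNear

open Finset

variable {F : Type} [Field F] [Fintype F]

/-- The value of an additive character has modulus one. -/
lemma norm_char (χ : AddChar F ℂ) (x : F) : ‖χ x‖ = 1 := χ.norm_apply x

lemma star_char (χ : AddChar F ℂ) (x : F) : star (χ x) = χ (-x) := by
  rw [AddChar.map_neg_eq_conj]; rfl

/-- A twisted quadratic Gauss sum has modulus `√q`. -/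
lemma gauss_sq (h2 : (2 : F) ≠ 0) {ψ : AddChar F ℂ} (hψ : ψ ≠ 1) (χ : AddChar F ℂ) {c : F}
    (hc : c ≠ 0) :
    (∑ k, χ k * ψ (c * k ^ 2)) * star (∑ k, χ k * ψ (c * k ^ 2)) = (Fintype.card F : ℂ) := by
  classical
  have hprim : ψ.IsPrimitive := AddChar.IsPrimitive.of_ne_one hψ
  rw [star_sum, Finset.sum_mul_sum]
  have h1 : ∀ l : F, ∑ k, χ k * ψ (c * k ^ 2) * star (χ l * ψ (c * l ^ 2)) =
      ∑ h, χ h * ψ (c * h ^ 2) * ψ (l * (2 * c * h)) := by
    intro l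
    rw [← Equiv.sum_comp (Equiv.addLeft l)]
    refine Finset.sum_congr rfl fun h _ => ?_
    rw [star_mul, star_char, star_char, Equiv.coe_addLeft]
    have e1 : χ (l + h) * ψ (c * (l + h) ^ 2) * (ψ (-(c * l ^ 2)) * χ (-l)) =
        (χ (l + h) * χ (-l)) * (ψ (c * (l + h) ^ 2) * ψ (-(c * l ^ 2))) := by ring
    rw [e1, ← AddChar.map_add_eq_mul, ← AddChar.map_add_eq_mul, mul_assoc,
      ← AddChar.map_add_eq_mul]
    congr 2 <;> ring
  rw [Finset.sum_comm]
  simp_rw [h1]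
  rw [Finset.sum_comm]
  simp_rw [← Finset.mul_sum, AddChar.sum_mulShift _ hprim]
  rw [Finset.sum_eq_single (0 : F)]
  · simp
  · intro h _ hh
    rw [if_neg (mul_ne_zero (mul_ne_zero h2 hc) hh)]
    simp
  · intro h
    exact absurd (Finset.mem_univ _) h

lemma gauss_norm (h2 : (2 : F) ≠ 0) {ψ : AddChar F ℂ} (hψ : ψ ≠ 1) (χ : AddChar F ℂ) {c : F}
    (hc : c ≠ 0) :
    ‖∑ k, χ k * ψ (c * k ^ 2)‖ = Real.sqrt (Fintype.card F) := by
  have h := gauss_sq h2 hψ χ hc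
  rw [Complex.star_def, Complex.mul_conj, Complex.normSq_eq_norm_sq] at h
  have h' : ‖∑ k, χ k * ψ (c * k ^ 2)‖ ^ 2 = (Fintype.card F : ℝ) := by exact_mod_cast h
  rw [← h', Real.sqrt_sq (norm_nonneg _)]

end Pool.Agent.Lib.MP_d0f9e0_co.WHNear
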