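import Pool.Agent.Lib.MP_d0f9e0_co.WHNear.Final
import Pool.Agent.Lib.MP_d0f9e0_co.WHNear.Mult

/-!
# Nearly equiangular Weyl-Heisenberg orbits: the uniform statement for both families of groups
-/

set_option autoImplicit false

namespace Pool.Agent.Lib.MP_d0f9e0_co.WHNear

open Finset

/-- The bound of the final statement. -/
noncomputable def rate (d : ℝ) : ℝ := 4 * d ^ (-(1 / 4) : ℝ) + 6 * d ^ (-(1 / 2) : ℝ)

lemma rate_lt_one {d : ℕ} (hd : 720 ≤ d) : rate d < 1 := by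
  have hd0 : (0 : ℝ) < d := by
    have : 0 < d := by omega
    exact_mod_cast this
  have hd7' : (720 : ℝ) ≤ d := by exact_mod_cast hd
  unfold rate
  set t : ℝ := (d : ℝ) ^ (-(1 / 4) : ℝ) with ht
  have ht0 : 0 < t := Real.rpow_pos_of_pos hd0 _
  have ht2 : t ^ 2 = (d : ℝ) ^ (-(1 / 2) : ℝ) := by
    rw [ht, ← Real.rpow_natCast, ← Real.rpow_mul hd0.le]; norm_num
  have ht4 : t ^ 4 = (d : ℝ)⁻¹ := by
    rw [ht, ← Real.rpow_natCast, ← Real.rpow_mul hd0.le, ← Real.rpow_neg_one]; norm_num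
  rw [← ht2]
  have h5 : t < 387 / 2000 := by
    refine lt_of_pow_lt_pow_left₀ 4 (by norm_num) ?_
    rw [ht4, inv_lt_comm₀ hd0 (by norm_num)]
    norm_num
    linarith
  nlinarith

/-- The bound on the ambiguity function for the additive groups of fields. -/
lemma near_add {A F : Type} [AddCommGroup A] [Fintype A] [Field F] [Fintype F]
    (h2 : (2 : F) ≠ 0) (e : A ≃+ F) : ∃ φ : A → ℂ, ∑ k, ‖φ k‖ ^ 2 = 1 ∧
      ∀ (a : A) (χ : AddChar A ℂ), ¬ (a = 0 ∧ χ = 1) →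
        |Real.sqrt ((Fintype.card A : ℝ) + 1) * ‖G.amb φ a χ‖ - 1| ≤ rate (Fintype.card A) := by
  classical
  obtain ⟨φ, h1, -, -, hamb⟩ := main (F := F) h2
  have hcard : Fintype.card A = Fintype.card F := Fintype.card_congr e.toEquiv
  refine ⟨fun k => φ (e k), ?_, ?_⟩
  · rw [← h1]
    exact Equiv.sum_comp e.toEquiv fun k => ‖φ k‖ ^ 2
  · intro a χ hne
    let χ' : AddChar F ℂ := χ.compAddMonoidHom e.symm.toAddMonoidHom
    have hχ' : ∀ k, χ' (e k) = χ k := by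
      intro k
      show χ (e.symm (e k)) = χ k
      rw [e.symm_apply_apply]
    have hne' : ¬ (e a = 0 ∧ χ' = 1) := by
      rintro ⟨ha, hc⟩
      refine hne ⟨(map_eq_zero_iff e e.injective).1 ha, ?_⟩
      ext k
      rw [← hχ' k, hc, AddChar.one_apply, AddChar.one_apply]
    have h := hamb (e a) χ' hne'
    have e1 : amb φ (e a) χ' = G.amb (fun k => φ (e k)) a χ := by
      unfold amb G.amb
      rw [← Equiv.sum_comp e.toEquiv]
      refine Finset.sum_congr rfl fun k _ => ?_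
      show χ' (e k) * φ (e k + e a) * star (φ (e k)) = χ k * φ (e (k + a)) * star (φ (e k))
      rw [hχ', map_add]
    rw [← e1, hcard]
    refine h.trans ?_
    unfold rate
    have hq1 : (0 : ℝ) < Fintype.card F := by exact_mod_cast Fintype.card_pos
    have p1 : 0 < (Fintype.card F : ℝ) ^ (-(1 / 4) : ℝ) := Real.rpow_pos_of_pos hq1 _
    have p2 : 0 < (Fintype.card F : ℝ) ^ (-(1 / 2) : ℝ) := Real.rpow_pos_of_pos hq1 _
    linarith

/-- The bound on the ambiguity function for the multiplicative groups of fields. -/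
lemma near_units {A F : Type} [AddCommGroup A] [Fintype A] [Field F] [Fintype F]
    (hA : 2 ≤ Fintype.card A) (e : A ≃+ Additive Fˣ) : ∃ φ : A → ℂ, ∑ k, ‖φ k‖ ^ 2 = 1 ∧
      ∀ (a : A) (χ : AddChar A ℂ), ¬ (a = 0 ∧ χ = 1) →
        |Real.sqrt ((Fintype.card A : ℝ) + 1) * ‖G.amb φ a χ‖ - 1| ≤ rate (Fintype.card A) := by
  classical
  have hγ : IsExp (fun k : A => Additive.toMul (e k)) := by
    refine ⟨Additive.toMul.bijective.comp e.bijective, fun k l => ?_⟩
    rw [map_add, toMul_add]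
  obtain ⟨φ, h1, hamb⟩ := near_mult hγ hA
  refine ⟨φ, h1, fun a χ hne => ?_⟩
  have h := hamb a χ (by
    by_contra hcon
    push Not at hcon
    exact hne hcon)
  have e1 : G.amb φ a χ = ∑ k, φ (k + a) * (starRingEnd ℂ) (φ k) * χ k := by
    unfold G.amb
    refine Finset.sum_congr rfl fun k _ => ?_
    rw [Complex.star_def]; ring
  rw [e1]
  exact h

/-- **Nearly equiangular Weyl-Heisenberg orbits** for the additive group of a finite field of odd
characteristic and for the multiplicative group of a finite field. -/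
theorem uniform {A F : Type} [AddCommGroup A] [Fintype A] [Field F] [Finite F]
    (hA : 2 ≤ Fintype.card A)
    (h : ((2 : F) ≠ 0 ∧ Nonempty (A ≃+ F)) ∨ Nonempty (A ≃+ Additive Fˣ)) :
    ∃ φ : A → ℂ,
      (∀ i : A × AddChar A ℂ, ∑ k, ‖i.2 k * φ (k + i.1)‖ ^ 2 = 1) ∧
      (∀ v : A → ℂ, ∑ i : A × AddChar A ℂ, ‖∑ k, i.2 k * φ (k + i.1) * star (v k)‖ ^ 2 =
        Fintype.card A * ∑ k, ‖v k‖ ^ 2) ∧
      (∀ i j : A × AddChar A ℂ, i ≠ j →
        |Real.sqrt (Fintype.card A + 1) *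
          ‖∑ k, i.2 k * φ (k + i.1) * star (j.2 k * φ (k + j.1))‖ - 1| ≤
        4 * (Fintype.card A : ℝ) ^ (-(1 / 4) : ℝ) + 6 * (Fintype.card A : ℝ) ^ (-(1 / 2) : ℝ)) ∧
      (720 ≤ Fintype.card A → LinearIndependent ℂ (fun i : A × AddChar A ℂ =>
        Matrix.vecMulVec (fun k => i.2 k * φ (k + i.1)) (star fun k => i.2 k * φ (k + i.1)))) := by
  classical
  have : Fintype F := Fintype.ofFinite F
  obtain ⟨φ, h1, hamb⟩ : ∃ φ : A → ℂ, ∑ k, ‖φ k‖ ^ 2 = 1 ∧
      ∀ (a : A) (χ : AddChar A ℂ), ¬ (a = 0 ∧ χ = 1) →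
        |Real.sqrt ((Fintype.card A : ℝ) + 1) * ‖G.amb φ a χ‖ - 1| ≤
          rate (Fintype.card A) := by
    rcases h with ⟨h2, ⟨e⟩⟩ | ⟨⟨e⟩⟩
    · exact near_add h2 e
    · exact near_units hA e
  obtain ⟨k1, k2, k3, k4⟩ := G.of_amb φ h1 _ _ hamb
  exact ⟨φ, k1, k2, k3, fun hq => k4 (rate_lt_one hq)⟩

end Pool.Agent.Lib.MP_d0f9e0_co.WHNear
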